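import Pool.Agent.Helper85.RC.Del0

/-!
# Project RC, track B: the rough coupling in the DEL form (statement (D) of helper17)

The coupling of the segments with the two families at the true angles is bounded from below by explicit sums over the
even frequencies: the full bilinear term with the base moments `e0`, half of the bilinear term with the rest moments
`er`, and squares. No window, no slope, no supremum of `|g|`.
-/

open MeasureTheory Set Filter Topology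

namespace Pool.Agent.Helper85.RC

open Helper49.LT Helper87.RC
open Helper56.RC (fc)
open Pool.Agent.Helper20.RC

/-- the angle of `g θ` near `φ` -/
noncomputable def ang (g : ℝ → ℂ) (φ : ℝ → ℝ) (θ : ℝ) : ℝ := φ θ + (g θ * ee (-φ θ)).arg

theorem ang_pol (g : ℝ → ℂ) (φ : ℝ → ℝ) (θ : ℝ) :
    g θ * ee (-φ θ) = (‖g θ‖ : ℂ) * ee (ang g φ θ - φ θ) := by
  unfold ang
  rw [add_sub_cancel_left]
  have h1 : ‖g θ * ee (-φ θ)‖ = ‖g θ‖ := by rw [norm_mul, norm_ee, mul_one]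
  have h2 := Complex.norm_mul_exp_arg_mul_I (g θ * ee (-φ θ))
  rw [h1] at h2
  unfold ee at h2 ⊢
  exact h2.symm

theorem ang_ee (g : ℝ → ℂ) (φ : ℝ → ℝ) (θ : ℝ) : g θ = (‖g θ‖ : ℂ) * ee (ang g φ θ) := by
  have h := ang_pol g φ θ
  have h2 : g θ = (g θ * ee (-φ θ)) * ee (φ θ) := by
    rw [mul_assoc, ← ee_add, neg_add_cancel, ee_zero, mul_one]
  rw [h2, h, mul_assoc, ← ee_add, sub_add_cancel]
  simp only [norm_mul, Complex.norm_real, norm_ee, norm_norm, mul_one]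

theorem ang_re (g : ℝ → ℂ) (φ : ℝ → ℝ) (θ : ℝ) :
    (g θ * ee (-φ θ)).re = ‖g θ‖ * Real.cos (ang g φ θ - φ θ) := by
  rw [ang_pol, Complex.re_ofReal_mul, ee_re]

theorem ang_im (g : ℝ → ℂ) (φ : ℝ → ℝ) (θ : ℝ) :
    (g θ * ee (-φ θ)).im = ‖g θ‖ * Real.sin (ang g φ θ - φ θ) := by
  rw [ang_pol, Complex.im_ofReal_mul, ee_im]

theorem ang_abs (g : ℝ → ℂ) (φ : ℝ → ℝ) (θ : ℝ) : |ang g φ θ - φ θ| ≤ Real.pi := by
  unfold ang
  rw [add_sub_cancel_left]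
  exact Complex.abs_arg_le_pi _

/-- integral frequencies do not see the choice of the lift -/
theorem lift_free {g : ℂ} {a b : ℝ} (ha : g = (‖g‖ : ℂ) * ee a) (hb : g = (‖g‖ : ℂ) * ee b) (k : ℕ) :
    (‖g‖ : ℂ) * ee (-(lk k * a)) = (‖g‖ : ℂ) * ee (-(lk k * b)) := by
  by_cases h0 : g = 0
  · rw [h0, norm_zero]; simp
  · have hn : (‖g‖ : ℂ) ≠ 0 := by
      rw [Ne, Complex.ofReal_eq_zero, norm_eq_zero]; exact h0
    have h1 : ee a = ee b := by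
      have h2 : (‖g‖ : ℂ) * ee a = (‖g‖ : ℂ) * ee b := by rw [← ha, ← hb]
      exact mul_left_cancel₀ hn h2
    have key : ∀ x : ℝ, ee (-(lk k * x)) = (ee x) ^ (-(2 * (k : ℤ) + 2)) := by
      intro x
      rw [← ee_int_mul]
      congr 1
      unfold lk
      push_cast
      ring
    rw [key, key, h1]

/-- the gain of one element -/
noncomputable def gn (g : ℝ → ℂ) (φ : ℝ → ℝ) (θ : ℝ) : ℝ := ‖g θ‖ - (g θ * ee (-φ θ)).re

/-- the difference of the true and the aligned moment density -/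
noncomputable def df (g : ℝ → ℂ) (φ : ℝ → ℝ) (l θ : ℝ) : ℂ :=
  (‖g θ‖ : ℂ) * ee (-(l * al g θ)) - eD g φ l θ

/-- one element against the truncated density -/
theorem elem_le (g : ℝ → ℂ) (φ : ℝ → ℝ) (θ : ℝ) {e00 c : ℝ} {e0 : ℕ → ℂ} {N : ℕ}
    (hc : ∀ s, dN e00 e0 N s ≤ c) :
    e00 * gn g φ θ - 2 * ∑ k ∈ Finset.range N, (df g φ (lk k) θ * (starRingEnd ℂ) (e0 k)).re / (lk k ^ 2 - 1)
      ≤ c * gn g φ θ := by
  have h1 := win_le (dN_cont e00 e0 N) hc (ang_abs g φ θ)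
  rw [elem_dN] at h1
  have h2 := mul_le_mul_of_nonneg_left h1 (norm_nonneg (g θ))
  have e1 : gn g φ θ = ‖g θ‖ * (1 - Real.cos (ang g φ θ - φ θ)) := by
    unfold gn; rw [ang_re]; ring
  have e2 : ∀ k : ℕ, df g φ (lk k) θ = ((‖g θ‖ : ℝ) : ℂ) * (ee (-lk k * ang g φ θ)
      - (((Real.cos (ang g φ θ - φ θ) : ℝ) : ℂ)
        - Complex.I * (lk k : ℝ) * ((Real.sin (ang g φ θ - φ θ) : ℝ) : ℂ)) * ee (-lk k * φ θ)) := by
    intro k
    unfold df eD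
    rw [lift_free (al_ee g θ) (ang_ee g φ θ) k, ang_re, ang_im, neg_mul, neg_mul]
    push_cast
    ring
  rw [e1]
  simp_rw [e2]
  have e3 : ∀ k : ℕ, (((‖g θ‖ : ℝ) : ℂ) * (ee (-lk k * ang g φ θ)
      - (((Real.cos (ang g φ θ - φ θ) : ℝ) : ℂ)
        - Complex.I * (lk k : ℝ) * ((Real.sin (ang g φ θ - φ θ) : ℝ) : ℂ)) * ee (-lk k * φ θ))
        * (starRingEnd ℂ) (e0 k)).re / (lk k ^ 2 - 1) = ‖g θ‖ * (((ee (-lk k * ang g φ θ)
      - (((Real.cos (ang g φ θ - φ θ) : ℝ) : ℂ)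
        - Complex.I * (lk k : ℝ) * ((Real.sin (ang g φ θ - φ θ) : ℝ) : ℂ)) * ee (-lk k * φ θ))
        * (starRingEnd ℂ) (e0 k)).re / (lk k ^ 2 - 1)) := by
    intro k
    rw [mul_assoc, Complex.re_ofReal_mul, mul_div_assoc]
  simp_rw [e3]
  rw [← Finset.mul_sum]
  calc _ = ‖g θ‖ * (e00 * (1 - Real.cos (ang g φ θ - φ θ))
      - 2 * ∑ k ∈ Finset.range N, ((ee (-lk k * ang g φ θ) - (((Real.cos (ang g φ θ - φ θ) : ℝ) : ℂ)
        - Complex.I * (lk k : ℝ) * ((Real.sin (ang g φ θ - φ θ) : ℝ) : ℂ)) * ee (-lk k * φ θ))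
        * (starRingEnd ℂ) (e0 k)).re / (lk k ^ 2 - 1)) := by ring
    _ ≤ ‖g θ‖ * (c * (1 - Real.cos (ang g φ θ - φ θ))) := h2
    _ = _ := by ring

theorem eD_bm {g : ℝ → ℂ} {D : ℝ} (h : BM g D) {φ : ℝ → ℝ} (n : Measurable φ) (l : ℝ) :
    BM (eD g φ l) ((D + |l| * D) * 1) := by
  have hg : BM (fun θ => g θ * ee (-φ θ)) (D * 1) :=
    h.mul ⟨continuous_ee.measurable.comp n.neg, fun θ => by
      show ‖ee (-φ θ)‖ ≤ 1
      rw [norm_ee]⟩
  have hr : BM (fun θ => (((g θ * ee (-φ θ)).re : ℝ) : ℂ)) D :=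
    ⟨Complex.measurable_ofReal.comp (Complex.measurable_re.comp hg.m), fun θ => by
      rw [Complex.norm_real, Real.norm_eq_abs]
      refine (Complex.abs_re_le_norm _).trans ((hg.b θ).trans (by rw [mul_one]))⟩
  have hi : BM (fun θ => (((g θ * ee (-φ θ)).im : ℝ) : ℂ)) D :=
    ⟨Complex.measurable_ofReal.comp (Complex.measurable_im.comp hg.m), fun θ => by
      rw [Complex.norm_real, Real.norm_eq_abs]
      refine (Complex.abs_im_le_norm _).trans ((hg.b θ).trans (by rw [mul_one]))⟩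
  have hii := hi.cmul (Complex.I * (l : ℂ))
  have h1 : ‖Complex.I * (l : ℂ)‖ = |l| := by
    rw [norm_mul, Complex.norm_I, one_mul, Complex.norm_real, Real.norm_eq_abs]
  rw [h1] at hii
  exact (hr.sub hii).mul ⟨continuous_ee.measurable.comp ((n.const_mul l).neg), fun θ => by
      show ‖ee (-(l * φ θ))‖ ≤ 1
      rw [norm_ee]⟩

theorem tr_bm {g : ℝ → ℂ} {D : ℝ} (h : BM g D) (l : ℝ) :
    BM (fun θ => (‖g θ‖ : ℂ) * ee (-(l * al g θ))) (D * 1) :=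
  BM.mul ⟨Complex.measurable_ofReal.comp h.m.norm, fun θ => by
    rw [Complex.norm_real, norm_norm]; exact h.b θ⟩
    ⟨continuous_ee.measurable.comp (((al_meas h.m).const_mul l).neg), fun θ => by
      show ‖ee (-(l * al g θ))‖ ≤ 1
      rw [norm_ee]⟩

theorem gn_bd {g : ℝ → ℂ} {D : ℝ} (h : BM g D) (φ : ℝ → ℝ) (θ : ℝ) : |gn g φ θ| ≤ 2 * D := by
  unfold gn
  have h1 : |(g θ * ee (-φ θ)).re| ≤ D := by
    refine (Complex.abs_re_le_norm _).trans ?_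
    rw [norm_mul, norm_ee, mul_one]; exact h.b θ
  have h2 := abs_le.1 h1
  have h3 := h.b θ
  have h4 := norm_nonneg (g θ)
  rw [abs_le]
  constructor <;> linarith [h2.1, h2.2]

theorem gn_meas {g : ℝ → ℂ} (h : Measurable g) {φ : ℝ → ℝ} (n : Measurable φ) : Measurable (gn g φ) :=
  h.norm.sub (Complex.measurable_re.comp (h.mul (continuous_ee.measurable.comp n.neg)))

variable {g1 g2 : ℝ → ℂ} {φ1 φ2 : ℝ → ℝ} {D : ℝ}

theorem mean_re {f : ℝ → ℂ} {C : ℝ} (hf : BM f C) :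
    ((1 / (2 * Real.pi) : ℂ) * ∫ θ in (0 : ℝ)..(2 * Real.pi), f θ).re
      = 1 / (2 * Real.pi) * ∫ θ in (0 : ℝ)..(2 * Real.pi), (f θ).re := by
  have e : (1 / (2 * Real.pi) : ℂ) = ((1 / (2 * Real.pi) : ℝ) : ℂ) := by push_cast; rfl
  rw [e, Complex.re_ofReal_mul]
  congr 1
  exact (Complex.reCLM.intervalIntegral_comp_comm (hf.i _ _)).symm

/-- the difference of the moments -/
theorem sub_mom (h1 : BM g1 D) (h2 : BM g2 D) (n1 : Measurable φ1) (n2 : Measurable φ2) (l : ℝ) :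
    sM g1 g2 l - eM g1 g2 φ1 φ2 l = (1 / (2 * Real.pi) : ℂ) *
      ∫ θ in (0 : ℝ)..(2 * Real.pi), (df g1 φ1 l θ + df g2 φ2 l θ) := by
  unfold sM eM
  rw [← mul_sub, ← intervalIntegral.integral_sub (((tr_bm h1 l).add (tr_bm h2 l)).i _ _)
    (((eD_bm h1 n1 l).add (eD_bm h2 n2 l)).i _ _)]
  congr 1
  refine intervalIntegral.integral_congr fun θ _ => ?_
  show (‖g1 θ‖ : ℂ) * ee (-(l * al g1 θ)) + (‖g2 θ‖ : ℂ) * ee (-(l * al g2 θ))
    - (eD g1 φ1 l θ + eD g2 φ2 l θ) = df g1 φ1 l θ + df g2 φ2 l θ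
  unfold df
  ring

theorem df_bm {g : ℝ → ℂ} (h : BM g D) {φ : ℝ → ℝ} (n : Measurable φ) (l : ℝ) :
    BM (df g φ l) (D * 1 + (D + |l| * D) * 1) := (tr_bm h l).sub (eD_bm h n l)

/-- the mean gain -/
noncomputable def GM (g1 g2 : ℝ → ℂ) (φ1 φ2 : ℝ → ℝ) : ℝ :=
  1 / (2 * Real.pi) * ∫ θ in (0 : ℝ)..(2 * Real.pi), (gn g1 φ1 θ + gn g2 φ2 θ)

theorem GM_eq (h1 : BM g1 D) (h2 : BM g2 D) (n1 : Measurable φ1) (n2 : Measurable φ2) :
    (sM g1 g2 0).re - (eM g1 g2 φ1 φ2 0).re = GM g1 g2 φ1 φ2 := by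
  rw [← Complex.sub_re, sub_mom h1 h2 n1 n2, mean_re ((df_bm h1 n1 0).add (df_bm h2 n2 0))]
  unfold GM
  congr 1
  refine intervalIntegral.integral_congr fun θ _ => ?_
  show (df g1 φ1 0 θ + df g2 φ2 0 θ).re = gn g1 φ1 θ + gn g2 φ2 θ
  have e : ∀ (g : ℝ → ℂ) (φ : ℝ → ℝ), (df g φ 0 θ).re = gn g φ θ := by
    intro g φ
    unfold df eD gn
    rw [zero_mul, neg_zero, ee_zero, zero_mul, neg_zero, ee_zero, Complex.ofReal_zero, mul_zero, zero_mul,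
      sub_zero, mul_one, mul_one, Complex.sub_re, Complex.ofReal_re, Complex.ofReal_re]
  rw [Complex.add_re, e, e]

/-- the base moments against the difference: finite sums -/
theorem base_le (h1 : BM g1 D) (h2 : BM g2 D) (n1 : Measurable φ1) (n2 : Measurable φ2) {e00 c : ℝ}
    {e0 : ℕ → ℂ} {N : ℕ} (hc : ∀ s, dN e00 e0 N s ≤ c) :
    e00 * GM g1 g2 φ1 φ2 - 2 * ∑ k ∈ Finset.range N,
      ((sM g1 g2 (lk k) - eM g1 g2 φ1 φ2 (lk k)) * (starRingEnd ℂ) (e0 k)).re / (lk k ^ 2 - 1)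
      ≤ c * GM g1 g2 φ1 φ2 := by
  have hp := Real.pi_pos
  have hgi : ∀ {g : ℝ → ℂ} {φ : ℝ → ℝ}, BM g D → Measurable φ →
      IntervalIntegrable (gn g φ) volume 0 (2 * Real.pi) := fun h n =>
    intg_real (gn_meas h.m n) (fun t => gn_bd h _ t) _ _
  have e1 : ∀ k : ℕ, ((sM g1 g2 (lk k) - eM g1 g2 φ1 φ2 (lk k)) * (starRingEnd ℂ) (e0 k)).re
      = 1 / (2 * Real.pi) * ∫ θ in (0 : ℝ)..(2 * Real.pi),
        ((df g1 φ1 (lk k) θ * (starRingEnd ℂ) (e0 k)).re + (df g2 φ2 (lk k) θ * (starRingEnd ℂ) (e0 k)).re) := by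
    intro k
    rw [sub_mom h1 h2 n1 n2, mul_assoc, ← intervalIntegral.integral_mul_const]
    have hb : BM (fun θ => (df g1 φ1 (lk k) θ + df g2 φ2 (lk k) θ) * (starRingEnd ℂ) (e0 k))
        ((D * 1 + (D + |lk k| * D) * 1 + (D * 1 + (D + |lk k| * D) * 1)) * ‖e0 k‖) :=
      ((df_bm h1 n1 (lk k)).add (df_bm h2 n2 (lk k))).mul
        ⟨measurable_const, fun _ => by rw [Complex.norm_conj]⟩
    rw [mean_re hb]
    congr 1
    refine intervalIntegral.integral_congr fun θ _ => ?_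
    show ((df g1 φ1 (lk k) θ + df g2 φ2 (lk k) θ) * (starRingEnd ℂ) (e0 k)).re = _
    rw [add_mul, Complex.add_re]
  have hk : ∀ {g : ℝ → ℂ} {φ : ℝ → ℝ}, BM g D → Measurable φ → ∀ k : ℕ,
      IntervalIntegrable (fun θ => (df g φ (lk k) θ * (starRingEnd ℂ) (e0 k)).re) volume 0 (2 * Real.pi) := by
    intro g φ h n k
    have hb := (df_bm h n (lk k)).mul (g := fun _ => (starRingEnd ℂ) (e0 k)) (D := ‖e0 k‖)
      ⟨measurable_const, fun _ => by rw [Complex.norm_conj]⟩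
    exact intg_real (Complex.measurable_re.comp hb.m)
      (fun t => (Complex.abs_re_le_norm _).trans (hb.b t)) _ _
  have hS : ∀ {g : ℝ → ℂ} {φ : ℝ → ℝ}, BM g D → Measurable φ →
      IntervalIntegrable (fun θ => e00 * gn g φ θ - 2 * ∑ k ∈ Finset.range N,
        (df g φ (lk k) θ * (starRingEnd ℂ) (e0 k)).re / (lk k ^ 2 - 1)) volume 0 (2 * Real.pi) := by
    intro g φ h n
    refine ((hgi h n).const_mul _).sub (IntervalIntegrable.const_mul ?_ 2)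
    have : (fun θ => ∑ k ∈ Finset.range N, (df g φ (lk k) θ * (starRingEnd ℂ) (e0 k)).re / (lk k ^ 2 - 1))
        = ∑ k ∈ Finset.range N, fun θ => (df g φ (lk k) θ * (starRingEnd ℂ) (e0 k)).re / (lk k ^ 2 - 1) := by
      funext θ; rw [Finset.sum_apply]
    rw [this]
    exact IntervalIntegrable.sum _ fun k _ => (hk h n k).div_const _
  have e2 : e00 * GM g1 g2 φ1 φ2 - 2 * ∑ k ∈ Finset.range N,
      ((sM g1 g2 (lk k) - eM g1 g2 φ1 φ2 (lk k)) * (starRingEnd ℂ) (e0 k)).re / (lk k ^ 2 - 1)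
      = 1 / (2 * Real.pi) * ∫ θ in (0 : ℝ)..(2 * Real.pi),
        ((e00 * gn g1 φ1 θ - 2 * ∑ k ∈ Finset.range N,
          (df g1 φ1 (lk k) θ * (starRingEnd ℂ) (e0 k)).re / (lk k ^ 2 - 1))
        + (e00 * gn g2 φ2 θ - 2 * ∑ k ∈ Finset.range N,
          (df g2 φ2 (lk k) θ * (starRingEnd ℂ) (e0 k)).re / (lk k ^ 2 - 1))) := by
    simp_rw [e1]
    unfold GM
    have e3 : (∫ θ in (0 : ℝ)..(2 * Real.pi),
        ((e00 * gn g1 φ1 θ - 2 * ∑ k ∈ Finset.range N,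
          (df g1 φ1 (lk k) θ * (starRingEnd ℂ) (e0 k)).re / (lk k ^ 2 - 1))
        + (e00 * gn g2 φ2 θ - 2 * ∑ k ∈ Finset.range N,
          (df g2 φ2 (lk k) θ * (starRingEnd ℂ) (e0 k)).re / (lk k ^ 2 - 1))))
        = ∫ θ in (0 : ℝ)..(2 * Real.pi), (e00 * (gn g1 φ1 θ + gn g2 φ2 θ)
          - 2 * ∑ k ∈ Finset.range N, ((df g1 φ1 (lk k) θ * (starRingEnd ℂ) (e0 k)).re
            + (df g2 φ2 (lk k) θ * (starRingEnd ℂ) (e0 k)).re) / (lk k ^ 2 - 1)) := by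
      refine intervalIntegral.integral_congr fun θ _ => ?_
      show (e00 * gn g1 φ1 θ - 2 * ∑ k ∈ Finset.range N,
          (df g1 φ1 (lk k) θ * (starRingEnd ℂ) (e0 k)).re / (lk k ^ 2 - 1))
        + (e00 * gn g2 φ2 θ - 2 * ∑ k ∈ Finset.range N,
          (df g2 φ2 (lk k) θ * (starRingEnd ℂ) (e0 k)).re / (lk k ^ 2 - 1)) = _
      simp_rw [add_div]
      rw [Finset.sum_add_distrib]
      ring
    have ik : ∀ k ∈ Finset.range N, IntervalIntegrable (fun θ =>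
        ((df g1 φ1 (lk k) θ * (starRingEnd ℂ) (e0 k)).re
            + (df g2 φ2 (lk k) θ * (starRingEnd ℂ) (e0 k)).re) / (lk k ^ 2 - 1)) volume 0 (2 * Real.pi) :=
      fun k _ => ((hk h1 n1 k).add (hk h2 n2 k)).div_const _
    have iS : IntervalIntegrable (fun θ => 2 * ∑ k ∈ Finset.range N,
        ((df g1 φ1 (lk k) θ * (starRingEnd ℂ) (e0 k)).re
            + (df g2 φ2 (lk k) θ * (starRingEnd ℂ) (e0 k)).re) / (lk k ^ 2 - 1)) volume 0 (2 * Real.pi) := by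
      refine IntervalIntegrable.const_mul ?_ 2
      have : (fun θ => ∑ k ∈ Finset.range N, ((df g1 φ1 (lk k) θ * (starRingEnd ℂ) (e0 k)).re
            + (df g2 φ2 (lk k) θ * (starRingEnd ℂ) (e0 k)).re) / (lk k ^ 2 - 1))
          = ∑ k ∈ Finset.range N, fun θ => ((df g1 φ1 (lk k) θ * (starRingEnd ℂ) (e0 k)).re
            + (df g2 φ2 (lk k) θ * (starRingEnd ℂ) (e0 k)).re) / (lk k ^ 2 - 1) := by
        funext θ; rw [Finset.sum_apply]
      rw [this]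
      exact IntervalIntegrable.sum _ ik
    rw [e3, intervalIntegral.integral_sub (((hgi h1 n1).add (hgi h2 n2)).const_mul _) iS,
      intervalIntegral.integral_const_mul, intervalIntegral.integral_const_mul,
      intervalIntegral.integral_finsetSum ik]
    simp_rw [intervalIntegral.integral_div]
    rw [mul_sub, Finset.mul_sum, Finset.mul_sum, Finset.mul_sum]
    congr 1
    · ring
    · refine Finset.sum_congr rfl fun k _ => ?_
      ring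
  rw [e2]
  unfold GM
  have e9 : c * (1 / (2 * Real.pi) * ∫ θ in (0 : ℝ)..(2 * Real.pi), (gn g1 φ1 θ + gn g2 φ2 θ))
      = 1 / (2 * Real.pi) * ∫ θ in (0 : ℝ)..(2 * Real.pi), c * (gn g1 φ1 θ + gn g2 φ2 θ) := by
    rw [intervalIntegral.integral_const_mul]; ring
  rw [e9]
  refine mul_le_mul_of_nonneg_left ?_ (by positivity : (0 : ℝ) ≤ 1 / (2 * Real.pi))
  refine intervalIntegral.integral_mono_on (by positivity) ((hS h1 n1).add (hS h2 n2))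
    (((hgi h1 n1).add (hgi h2 n2)).const_mul _) fun θ _ => ?_
  have a1 := elem_le g1 φ1 θ hc
  have a2 := elem_le g2 φ2 θ hc
  rw [mul_add]
  exact add_le_add a1 a2

/-- the true moments at the negative frequency -/
theorem sM_neg (g1 g2 : ℝ → ℂ) (l : ℝ) : sM g1 g2 (-l) = (starRingEnd ℂ) (sM g1 g2 l) := by
  unfold sM
  rw [map_mul]
  have e0 : (starRingEnd ℂ) (1 / (2 * Real.pi) : ℂ) = (1 / (2 * Real.pi) : ℂ) := by
    simp only [map_mul, map_div₀, map_one, map_ofNat, Complex.conj_ofReal]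
  rw [e0, ← intervalIntegral.intervalIntegral_conj]
  congr 1
  refine intervalIntegral.integral_congr fun θ _ => ?_
  show (‖g1 θ‖ : ℂ) * ee (-(-l * al g1 θ)) + (‖g2 θ‖ : ℂ) * ee (-(-l * al g2 θ))
    = (starRingEnd ℂ) ((‖g1 θ‖ : ℂ) * ee (-(l * al g1 θ)) + (‖g2 θ‖ : ℂ) * ee (-(l * al g2 θ)))
  rw [map_add, map_mul, map_mul, Complex.conj_ofReal, Complex.conj_ofReal, ← ee_neg, ← ee_neg]
  congr 3 <;> ring

theorem mom_al (h1 : BM g1 D) (h2 : BM g2 D) (j : ℤ) :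
    mom g1 (al g1) (2 * j + 1) + mom g2 (al g2) (2 * j + 1) = (starRingEnd ℂ) (sM g1 g2 (2 * (j : ℝ))) := by
  rw [← sM_neg]
  unfold mom sM
  have hb : ∀ {g : ℝ → ℂ}, BM g D → IntervalIntegrable
      (fun θ => ee (((2 * j + 1 : ℤ) : ℝ) * al g θ) * (starRingEnd ℂ) (g θ)) volume 0 (2 * Real.pi) := by
    intro g h
    exact (BM.mul (f := fun θ => ee (((2 * j + 1 : ℤ) : ℝ) * al g θ)) (C := 1)
      ⟨continuous_ee.measurable.comp ((al_meas h.m).const_mul _), fun θ => by rw [norm_ee]⟩ h.conj).i _ _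
  rw [← mul_add, ← intervalIntegral.integral_add (hb h1) (hb h2)]
  congr 1
  refine intervalIntegral.integral_congr fun θ _ => ?_
  show ee (((2 * j + 1 : ℤ) : ℝ) * al g1 θ) * (starRingEnd ℂ) (g1 θ)
    + ee (((2 * j + 1 : ℤ) : ℝ) * al g2 θ) * (starRingEnd ℂ) (g2 θ)
    = (‖g1 θ‖ : ℂ) * ee (-(-(2 * (j : ℝ)) * al g1 θ)) + (‖g2 θ‖ : ℂ) * ee (-(-(2 * (j : ℝ)) * al g2 θ))
  have key : ∀ g : ℝ → ℂ, ee (((2 * j + 1 : ℤ) : ℝ) * al g θ) * (starRingEnd ℂ) (g θ)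
      = (‖g θ‖ : ℂ) * ee (-(-(2 * (j : ℝ)) * al g θ)) := by
    intro g
    have h := al_ee g θ
    have h3 : (starRingEnd ℂ) (g θ) = (‖g θ‖ : ℂ) * ee (-al g θ) := by
      conv_lhs => rw [h]
      rw [map_mul, Complex.conj_ofReal, ← ee_neg]
    rw [h3, mul_left_comm, ← ee_add]
    congr 2
    push_cast
    ring
  rw [key, key]

/-- the coefficients of the support function of `α` -/
noncomputable def HH (α : ℝ → ℂ) (k : ℕ) : ℂ :=
  (fc α (2 * (k : ℤ) + 2) / ((lk k + 1 : ℝ) : ℂ)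
    - (starRingEnd ℂ) (fc α (-(2 * (k : ℤ) + 2))) / ((lk k - 1 : ℝ) : ℂ)) / 2

/-- the coupling at the true angles as a series -/
theorem L2b_true {α : ℝ → ℂ} {E : ℝ} (ha : BM α E) (hpa : ∀ t, α (t + Real.pi) = α t)
    (h1 : BM g1 D) (h2 : BM g2 D) :
    Tendsto (fun N : ℕ => (fc α 0).re * (sM g1 g2 0).re
      + ∑ k ∈ Finset.range N, 2 * (HH α k * (starRingEnd ℂ) (sM g1 g2 (lk k))).re) atTop
      (𝓝 (L2b α g1 g2 (al g1) (al g2))) := by
  have h := L2b_hasSum ha hpa h1 h2 (al_meas h1.m) (al_meas h2.m)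
  have h' := h.nat_add_neg.tendsto_sum_nat
  have h0i : (sM g1 g2 0).im = 0 := by
    have := sM_neg g1 g2 0
    rw [neg_zero] at this
    exact Complex.conj_eq_iff_im.1 this.symm
  have e0 : (fc α (2 * (0 : ℤ)) / (2 * ((0 : ℤ) : ℂ) + 1) * (mom g1 (al g1) (2 * 0 + 1) + mom g2 (al g2) (2 * 0 + 1))).re
      = (fc α 0).re * (sM g1 g2 0).re := by
    rw [mom_al h1 h2 0]
    have e : (2 * ((0 : ℤ) : ℝ)) = 0 := by norm_num
    rw [e]
    simp [Complex.mul_re, h0i]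
  have e1 : ∀ k : ℕ, (fc α (2 * (((k + 1 : ℕ) : ℤ))) / (2 * (((k + 1 : ℕ) : ℤ) : ℂ) + 1) *
        (mom g1 (al g1) (2 * ((k + 1 : ℕ) : ℤ) + 1) + mom g2 (al g2) (2 * ((k + 1 : ℕ) : ℤ) + 1))).re
      + (fc α (2 * (-((k + 1 : ℕ) : ℤ))) / (2 * ((-((k + 1 : ℕ) : ℤ) : ℤ) : ℂ) + 1) *
        (mom g1 (al g1) (2 * (-((k + 1 : ℕ) : ℤ)) + 1) + mom g2 (al g2) (2 * (-((k + 1 : ℕ) : ℤ)) + 1))).re
      = 2 * (HH α k * (starRingEnd ℂ) (sM g1 g2 (lk k))).re := by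
    intro k
    rw [mom_al h1 h2, mom_al h1 h2]
    have a1 : (2 * ((((k + 1 : ℕ) : ℤ)) : ℝ)) = lk k := by unfold lk; push_cast; ring
    have a2 : (2 * (((-((k + 1 : ℕ) : ℤ) : ℤ)) : ℝ)) = -lk k := by unfold lk; push_cast; ring
    rw [a1, a2, sM_neg, Complex.conj_conj]
    have a3 : (2 * ((k + 1 : ℕ) : ℤ)) = 2 * (k : ℤ) + 2 := by push_cast; ring
    have a4 : (2 * (-((k + 1 : ℕ) : ℤ))) = -(2 * (k : ℤ) + 2) := by push_cast; ring
    have a5 : (2 * (((k + 1 : ℕ) : ℤ) : ℂ) + 1) = ((lk k + 1 : ℝ) : ℂ) := by unfold lk; push_cast; ring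
    have a6 : (2 * ((-((k + 1 : ℕ) : ℤ) : ℤ) : ℂ) + 1) = -((lk k - 1 : ℝ) : ℂ) := by unfold lk; push_cast; ring
    rw [a3, a4, a5, a6]
    unfold HH
    have a7 : ∀ z w : ℂ, (z / -((lk k - 1 : ℝ) : ℂ) * w).re
        = (-((starRingEnd ℂ) z / ((lk k - 1 : ℝ) : ℂ)) * (starRingEnd ℂ) w).re := by
      intro z w
      rw [← Complex.conj_re (z / -((lk k - 1 : ℝ) : ℂ) * w)]
      congr 1
      rw [map_mul, map_div₀, map_neg, Complex.conj_ofReal, div_neg]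
    rw [a7, ← Complex.add_re, ← add_mul]
    have a8 : ∀ z : ℂ, 2 * z.re = (2 * z).re := fun z => by simp
    rw [a8]
    congr 1
    ring
  have h2' : Tendsto (fun N : ℕ => (∑ k ∈ Finset.range (N + 1),
      ((fc α (2 * ((k : ℕ) : ℤ)) / (2 * (((k : ℕ) : ℤ) : ℂ) + 1) *
        (mom g1 (al g1) (2 * ((k : ℕ) : ℤ) + 1) + mom g2 (al g2) (2 * ((k : ℕ) : ℤ) + 1))).re
      + (fc α (2 * (-((k : ℕ) : ℤ))) / (2 * ((-((k : ℕ) : ℤ) : ℤ) : ℂ) + 1) *
        (mom g1 (al g1) (2 * (-((k : ℕ) : ℤ)) + 1) + mom g2 (al g2) (2 * (-((k : ℕ) : ℤ)) + 1))).re))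
      - (fc α 0).re * (sM g1 g2 0).re) atTop
      (𝓝 (L2b α g1 g2 (al g1) (al g2))) := by
    have h3 := (h'.comp (tendsto_add_atTop_nat 1)).sub_const ((fc α 0).re * (sM g1 g2 0).re)
    have e5 : L2b α g1 g2 (al g1) (al g2)
        + (fc α (2 * (0 : ℤ)) / (2 * ((0 : ℤ) : ℂ) + 1) * (mom g1 (al g1) (2 * 0 + 1) + mom g2 (al g2) (2 * 0 + 1))).re
        - (fc α 0).re * (sM g1 g2 0).re = L2b α g1 g2 (al g1) (al g2) := by
      rw [e0]; ring
    rw [e5] at h3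
    exact h3
  refine h2'.congr fun N => ?_
  rw [Finset.sum_range_succ']
  simp_rw [e1]
  have e6 : ((fc α (2 * ((0 : ℕ) : ℤ)) / (2 * (((0 : ℕ) : ℤ) : ℂ) + 1) *
        (mom g1 (al g1) (2 * ((0 : ℕ) : ℤ) + 1) + mom g2 (al g2) (2 * ((0 : ℕ) : ℤ) + 1))).re
      + (fc α (2 * (-((0 : ℕ) : ℤ))) / (2 * ((-((0 : ℕ) : ℤ) : ℤ) : ℂ) + 1) *
        (mom g1 (al g1) (2 * (-((0 : ℕ) : ℤ)) + 1) + mom g2 (al g2) (2 * (-((0 : ℕ) : ℤ)) + 1))).re)
      = 2 * ((fc α 0).re * (sM g1 g2 0).re) := by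
    have : (-((0 : ℕ) : ℤ)) = (0 : ℤ) := by norm_num
    rw [this]
    have h7 : ((0 : ℕ) : ℤ) = 0 := rfl
    rw [h7, e0]; ring
  rw [e6]
  ring

end Pool.Agent.Helper85.RC
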