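import Pool.Agent.Helper20.RC.SignF
import Pool.Agent.Helper20.RC.Link2F

/-!
# Project RC, track B, the rough coupling (DEL form): elementary pieces
-/

open MeasureTheory Set Filter Topology

namespace Pool.Agent.Helper85.RC

open Helper49.LT Helper87.RC
open Helper56.RC (fc)
open Pool.Agent.Helper20.RC

/-- the window integral of an upper bounded density -/
theorem win_le {f : ℝ → ℝ} {c φ a : ℝ} (hf : Continuous f) (hc : ∀ s, f s ≤ c) (ha : |a - φ| ≤ Real.pi) :
    ∫ s in φ..a, Real.sin (a - s) * f s ≤ c * (1 - Real.cos (a - φ)) := by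
  have hs : Continuous fun s => Real.sin (a - s) := Real.continuous_sin.comp (continuous_const.sub continuous_id)
  have i1 : ∀ x y : ℝ, IntervalIntegrable (fun s => Real.sin (a - s) * f s) volume x y := fun x y =>
    (hs.mul hf).intervalIntegrable _ _
  have i2 : ∀ x y : ℝ, IntervalIntegrable (fun s => Real.sin (a - s) * c) volume x y := fun x y =>
    (hs.mul continuous_const).intervalIntegrable _ _
  have hv : ∫ s in φ..a, Real.sin (a - s) * c = c * (1 - Real.cos (a - φ)) := by
    rw [intervalIntegral.integral_mul_const, intervalIntegral.integral_comp_sub_left (fun s => Real.sin s),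
      integral_sin, sub_self, Real.cos_zero, mul_comm]
  rw [← hv]
  obtain ⟨h1, h2⟩ := abs_le.1 ha
  rcases le_total φ a with h | h
  · refine intervalIntegral.integral_mono_on h (i1 _ _) (i2 _ _) fun s hs' => ?_
    refine mul_le_mul_of_nonneg_left (hc s) (Real.sin_nonneg_of_nonneg_of_le_pi ?_ ?_)
    · linarith [hs'.2]
    · linarith [hs'.1]
  · rw [intervalIntegral.integral_symm a φ, intervalIntegral.integral_symm a φ]
    refine neg_le_neg ?_
    refine intervalIntegral.integral_mono_on h (i2 _ _) (i1 _ _) fun s hs' => ?_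
    refine mul_le_mul_of_nonpos_left (hc s) (Real.sin_nonpos_of_nonpos_of_neg_pi_le ?_ ?_)
    · linarith [hs'.1]
    · linarith [hs'.2]

/-- the basic identity of one window at the frequency `l` -/
theorem elem (l φ a : ℝ) :
    (1 - (l : ℂ) ^ 2) * ∫ s in φ..a, ((Real.sin (a - s) : ℝ) : ℂ) * ee (-l * s)
      = ee (-l * a) - (((Real.cos (a - φ) : ℝ) : ℂ) - Complex.I * l * ((Real.sin (a - φ) : ℝ) : ℂ)) * ee (-l * φ) := by
  have hd : ∀ s : ℝ, HasDerivAt (fun s : ℝ => (((Real.cos (a - s) : ℝ) : ℂ)
      - Complex.I * l * ((Real.sin (a - s) : ℝ) : ℂ)) * ee (-l * s))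
      ((1 - (l : ℂ) ^ 2) * (((Real.sin (a - s) : ℝ) : ℂ) * ee (-l * s))) s := by
    intro s
    have h0 : HasDerivAt (fun s : ℝ => a - s) (-1) s := by
      simpa using (hasDerivAt_id s).const_sub a
    have h1 : HasDerivAt (fun s : ℝ => ((Real.cos (a - s) : ℝ) : ℂ)) ((Real.sin (a - s) : ℝ) : ℂ) s := by
      have := ((Real.hasDerivAt_cos (a - s)).comp s h0).ofReal_comp
      refine this.congr_deriv ?_
      push_cast; ring
    have h2 : HasDerivAt (fun s : ℝ => ((Real.sin (a - s) : ℝ) : ℂ)) (-((Real.cos (a - s) : ℝ) : ℂ)) s := by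
      have := ((Real.hasDerivAt_sin (a - s)).comp s h0).ofReal_comp
      refine this.congr_deriv ?_
      push_cast; ring
    have h12 : HasDerivAt (fun s : ℝ => ((Real.cos (a - s) : ℝ) : ℂ)
        - Complex.I * l * ((Real.sin (a - s) : ℝ) : ℂ))
        (((Real.sin (a - s) : ℝ) : ℂ) - Complex.I * l * (-((Real.cos (a - s) : ℝ) : ℂ))) s :=
      h1.sub (h2.const_mul (Complex.I * l))
    have h3 : HasDerivAt (fun s : ℝ => (((Real.cos (a - s) : ℝ) : ℂ)
        - Complex.I * l * ((Real.sin (a - s) : ℝ) : ℂ)) * ee (-l * s))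
        ((((Real.sin (a - s) : ℝ) : ℂ) - Complex.I * l * (-((Real.cos (a - s) : ℝ) : ℂ))) * ee (-l * s)
          + (((Real.cos (a - s) : ℝ) : ℂ) - Complex.I * l * ((Real.sin (a - s) : ℝ) : ℂ))
            * (((-l : ℝ) : ℂ) * Complex.I * ee (-l * s))) s := h12.mul (hasDerivAt_ee (-l) s)
    refine h3.congr_deriv ?_
    generalize ee (-l * s) = E
    generalize ((Real.sin (a - s) : ℝ) : ℂ) = S
    generalize ((Real.cos (a - s) : ℝ) : ℂ) = T
    push_cast
    ring_nf
    rw [Complex.I_sq]
    ring
  have hc : Continuous fun s : ℝ => (1 - (l : ℂ) ^ 2) * (((Real.sin (a - s) : ℝ) : ℂ) * ee (-l * s)) := by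
    refine continuous_const.mul (Continuous.mul ?_ ?_)
    · exact Complex.continuous_ofReal.comp (Real.continuous_sin.comp (continuous_const.sub continuous_id))
    · exact continuous_ee.comp (continuous_const.mul continuous_id)
  rw [← intervalIntegral.integral_const_mul,
    intervalIntegral.integral_eq_sub_of_hasDerivAt (fun s _ => hd s) (hc.intervalIntegrable _ _),
    sub_self, Real.cos_zero, Real.sin_zero]
  push_cast
  ring

/-- truncated density -/
noncomputable def dN (e00 : ℝ) (e0 : ℕ → ℂ) (N : ℕ) (s : ℝ) : ℝ :=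
  e00 + 2 * ∑ k ∈ Finset.range N, (e0 k * ee (lk k * s)).re

theorem dN_cont (e00 : ℝ) (e0 : ℕ → ℂ) (N : ℕ) : Continuous (dN e00 e0 N) := by
  unfold dN
  refine continuous_const.add (continuous_const.mul (continuous_finsetSum _ fun k _ => ?_))
  exact Complex.continuous_re.comp (continuous_const.mul (continuous_ee.comp (continuous_const.mul continuous_id)))

/-- one element against the truncated density -/
theorem elem_dN (e00 : ℝ) (e0 : ℕ → ℂ) (N : ℕ) (φ a : ℝ) :
    ∫ s in φ..a, Real.sin (a - s) * dN e00 e0 N s = e00 * (1 - Real.cos (a - φ))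
      - 2 * ∑ k ∈ Finset.range N, ((ee (-lk k * a) - (((Real.cos (a - φ) : ℝ) : ℂ)
        - Complex.I * (lk k : ℝ) * ((Real.sin (a - φ) : ℝ) : ℂ)) * ee (-lk k * φ))
        * (starRingEnd ℂ) (e0 k)).re / (lk k ^ 2 - 1) := by
  have hs : Continuous fun s => Real.sin (a - s) := Real.continuous_sin.comp (continuous_const.sub continuous_id)
  have hk : ∀ k : ℕ, ∫ s in φ..a, Real.sin (a - s) * (e0 k * ee (lk k * s)).re =
      -(((ee (-lk k * a) - (((Real.cos (a - φ) : ℝ) : ℂ)
        - Complex.I * (lk k : ℝ) * ((Real.sin (a - φ) : ℝ) : ℂ)) * ee (-lk k * φ))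
        * (starRingEnd ℂ) (e0 k)).re / (lk k ^ 2 - 1)) := by
    intro k
    rw [← elem (lk k) φ a]
    have h0 := lk_sq k
    have hc : Continuous fun s : ℝ => ((Real.sin (a - s) : ℝ) : ℂ) * ee (-lk k * s) :=
      (Complex.continuous_ofReal.comp hs).mul (continuous_ee.comp (continuous_const.mul continuous_id))
    have e1 : (1 - ((lk k : ℝ) : ℂ) ^ 2) = ((1 - lk k ^ 2 : ℝ) : ℂ) := by push_cast; ring
    rw [e1, mul_assoc, Complex.re_ofReal_mul]
    have e2 : (∫ s in φ..a, ((Real.sin (a - s) : ℝ) : ℂ) * ee (-lk k * s)) * (starRingEnd ℂ) (e0 k)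
        = ∫ s in φ..a, ((Real.sin (a - s) : ℝ) : ℂ) * ee (-lk k * s) * (starRingEnd ℂ) (e0 k) :=
      (intervalIntegral.integral_mul_const _ _).symm
    have e3 : (∫ s in φ..a, ((Real.sin (a - s) : ℝ) : ℂ) * ee (-lk k * s) * (starRingEnd ℂ) (e0 k)).re
        = ∫ s in φ..a, (((Real.sin (a - s) : ℝ) : ℂ) * ee (-lk k * s) * (starRingEnd ℂ) (e0 k)).re :=
      (Complex.reCLM.intervalIntegral_comp_comm ((hc.mul continuous_const).intervalIntegrable _ _)).symm
    rw [e2, e3]
    have e4 : ∀ s : ℝ, (((Real.sin (a - s) : ℝ) : ℂ) * ee (-lk k * s) * (starRingEnd ℂ) (e0 k)).re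
        = Real.sin (a - s) * (e0 k * ee (lk k * s)).re := by
      intro s
      rw [mul_assoc, Complex.re_ofReal_mul]
      congr 1
      rw [neg_mul, ee_neg, ← map_mul, Complex.conj_re, mul_comm]
    simp_rw [e4]
    generalize ∫ s in φ..a, Real.sin (a - s) * (e0 k * ee (lk k * s)).re = J
    field_simp
    ring
  unfold dN
  have e5 : ∀ s : ℝ, Real.sin (a - s) * (e00 + 2 * ∑ k ∈ Finset.range N, (e0 k * ee (lk k * s)).re)
      = Real.sin (a - s) * e00 + 2 * ∑ k ∈ Finset.range N, Real.sin (a - s) * (e0 k * ee (lk k * s)).re := by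
    intro s
    rw [← Finset.mul_sum]; ring
  simp_rw [e5]
  have ik : ∀ k : ℕ, IntervalIntegrable (fun s => Real.sin (a - s) * (e0 k * ee (lk k * s)).re) volume φ a := by
    intro k
    refine (hs.mul ?_).intervalIntegrable _ _
    exact Complex.continuous_re.comp (continuous_const.mul (continuous_ee.comp (continuous_const.mul continuous_id)))
  have ia : IntervalIntegrable (fun s => Real.sin (a - s) * e00) volume φ a :=
    (hs.mul continuous_const).intervalIntegrable _ _
  have ib : IntervalIntegrable (fun s => 2 * ∑ k ∈ Finset.range N,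
      Real.sin (a - s) * (e0 k * ee (lk k * s)).re) volume φ a := by
    refine (Continuous.intervalIntegrable ?_ _ _)
    refine continuous_const.mul (continuous_finsetSum _ fun k _ => hs.mul ?_)
    exact Complex.continuous_re.comp (continuous_const.mul (continuous_ee.comp (continuous_const.mul continuous_id)))
  rw [intervalIntegral.integral_add ia ib,
    intervalIntegral.integral_const_mul, intervalIntegral.integral_finsetSum fun k _ => ik k]
  simp_rw [hk]
  rw [intervalIntegral.integral_mul_const, intervalIntegral.integral_comp_sub_left (fun s => Real.sin s),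
    integral_sin, sub_self, Real.cos_zero, Finset.sum_neg_distrib]
  ring

end Pool.Agent.Helper85.RC
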