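import Pool.Agent.Helper85.RC.Del

/-!
# Project RC, track B: the rough coupling in the DEL form, final theorem
-/

open MeasureTheory Set Filter Topology

namespace Pool.Agent.Helper85.RC

open Helper49.LT Helper87.RC
open Helper56.RC (fc)
open Pool.Agent.Helper20.RC

variable {g1 g2 : ℝ → ℂ} {φ1 φ2 : ℝ → ℝ} {D : ℝ}

/-- completing the square at one frequency -/
theorem sq_k {ν m : ℝ} (hν : 0 < ν) (hm : 0 < m) (H e0 er s : ℂ) :
    2 * (H * (starRingEnd ℂ) e0).re + (H * (starRingEnd ℂ) er).re - 1 / ν * (m * ‖H‖ ^ 2)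
      - ν / 4 * (‖er‖ ^ 2 / m) + ν * ((s - (e0 + er)) * (starRingEnd ℂ) e0).re / m
      ≤ 2 * (H * (starRingEnd ℂ) s).re + ν * ((s - (e0 + er)) * (starRingEnd ℂ) s).re / m := by
  have hsq : 0 ≤ ν / m * (((s - (e0 + er)).re + m / ν * H.re + er.re / 2) ^ 2
      + ((s - (e0 + er)).im + m / ν * H.im + er.im / 2) ^ 2) := by positivity
  have n1 : ∀ z : ℂ, ‖z‖ ^ 2 = z.re ^ 2 + z.im ^ 2 := fun z => by
    rw [← Complex.normSq_eq_norm_sq, Complex.normSq_apply]; ring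
  rw [n1, n1]
  have key : (2 * (H * (starRingEnd ℂ) s).re + ν * ((s - (e0 + er)) * (starRingEnd ℂ) s).re / m)
      - (2 * (H * (starRingEnd ℂ) e0).re + (H * (starRingEnd ℂ) er).re - 1 / ν * (m * (H.re ^ 2 + H.im ^ 2))
      - ν / 4 * ((er.re ^ 2 + er.im ^ 2) / m) + ν * ((s - (e0 + er)) * (starRingEnd ℂ) e0).re / m)
      = ν / m * (((s - (e0 + er)).re + m / ν * H.re + er.re / 2) ^ 2
      + ((s - (e0 + er)).im + m / ν * H.im + er.im / 2) ^ 2) := by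
    simp only [Complex.mul_re, Complex.conj_re, Complex.conj_im, Complex.sub_re, Complex.sub_im,
      Complex.add_re, Complex.add_im]
    field_simp
    ring
  linarith

theorem fc_le {α : ℝ → ℂ} {E : ℝ} (ha : BM α E) (n : ℤ) : ‖fc α n‖ ≤ E := by
  have hp := Real.pi_pos
  rw [fc_eq]
  have h1 : ‖∫ t in (0 : ℝ)..(2 * Real.pi), α t * ee (-(n : ℝ) * t)‖ ≤ E * |2 * Real.pi - 0| :=
    intervalIntegral.norm_integral_le_of_norm_le_const fun t _ => by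
      rw [norm_mul, norm_ee, mul_one]; exact ha.b t
  have e : ‖(1 / (2 * Real.pi) : ℂ)‖ = 1 / (2 * Real.pi) := by
    rw [norm_div, norm_one, norm_mul, Complex.norm_real, Real.norm_of_nonneg hp.le]
    norm_num
  rw [norm_mul, e]
  rw [sub_zero, abs_of_pos (by positivity)] at h1
  calc 1 / (2 * Real.pi) * ‖∫ t in (0 : ℝ)..(2 * Real.pi), α t * ee (-(n : ℝ) * t)‖
      ≤ 1 / (2 * Real.pi) * (E * (2 * Real.pi)) := mul_le_mul_of_nonneg_left h1 (by positivity)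
    _ = E := by field_simp

/-- pointwise bound of the coefficients -/
theorem HH_sq {α : ℝ → ℂ} (k : ℕ) : (lk k ^ 2 - 1) * ‖HH α k‖ ^ 2
    ≤ ‖fc α (2 * (k : ℤ) + 2)‖ ^ 2 + 2 * ‖fc α (-(2 * (k : ℤ) + 2))‖ ^ 2 := by
  have hl := lk_ge k
  have h1 : ‖HH α k‖ ≤ (‖fc α (2 * (k : ℤ) + 2)‖ / (lk k + 1) + ‖fc α (-(2 * (k : ℤ) + 2))‖ / (lk k - 1)) / 2 := by
    unfold HH
    rw [norm_div, Complex.norm_ofNat]
    refine div_le_div_of_nonneg_right ((norm_sub_le _ _).trans (le_of_eq ?_)) (by norm_num)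
    rw [norm_div, norm_div, Complex.norm_conj, Complex.norm_real, Complex.norm_real,
      Real.norm_of_nonneg (by linarith), Real.norm_of_nonneg (by linarith)]
  set u := ‖fc α (2 * (k : ℤ) + 2)‖ with hu
  set v := ‖fc α (-(2 * (k : ℤ) + 2))‖ with hv
  have h0 : 0 ≤ ‖HH α k‖ := norm_nonneg _
  have h2 : ‖HH α k‖ ^ 2 ≤ ((u / (lk k + 1) + v / (lk k - 1)) / 2) ^ 2 := pow_le_pow_left₀ h0 h1 2
  have h3 : ((u / (lk k + 1) + v / (lk k - 1)) / 2) ^ 2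
      ≤ (u / (lk k + 1)) ^ 2 / 2 + (v / (lk k - 1)) ^ 2 / 2 := by
    nlinarith [sq_nonneg (u / (lk k + 1) - v / (lk k - 1))]
  have hm : 0 < lk k ^ 2 - 1 := lk_sq k
  have h4 : (lk k ^ 2 - 1) * ((u / (lk k + 1)) ^ 2 / 2) ≤ u ^ 2 := by
    have e : (lk k ^ 2 - 1) * ((u / (lk k + 1)) ^ 2 / 2) = u ^ 2 * ((lk k - 1) / (2 * (lk k + 1))) := by
      have : lk k + 1 ≠ 0 := by linarith
      field_simp
      ring
    rw [e]
    refine mul_le_of_le_one_right (sq_nonneg u) ?_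
    rw [div_le_one (by linarith)]
    linarith
  have h5 : (lk k ^ 2 - 1) * ((v / (lk k - 1)) ^ 2 / 2) ≤ 2 * v ^ 2 := by
    have e : (lk k ^ 2 - 1) * ((v / (lk k - 1)) ^ 2 / 2) = v ^ 2 * ((lk k + 1) / (2 * (lk k - 1))) := by
      have : lk k - 1 ≠ 0 := by linarith
      field_simp
      ring
    rw [e, mul_comm]
    refine mul_le_mul_of_nonneg_right ?_ (sq_nonneg v)
    rw [div_le_iff₀ (by linarith)]
    linarith
  calc (lk k ^ 2 - 1) * ‖HH α k‖ ^ 2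
      ≤ (lk k ^ 2 - 1) * ((u / (lk k + 1)) ^ 2 / 2 + (v / (lk k - 1)) ^ 2 / 2) :=
        mul_le_mul_of_nonneg_left (h2.trans h3) hm.le
    _ = (lk k ^ 2 - 1) * ((u / (lk k + 1)) ^ 2 / 2) + (lk k ^ 2 - 1) * ((v / (lk k - 1)) ^ 2 / 2) := by ring
    _ ≤ u ^ 2 + 2 * v ^ 2 := add_le_add h4 h5

theorem HH_summable {α : ℝ → ℂ} {E : ℝ} (ha : BM α E) :
    Summable fun k : ℕ => (lk k ^ 2 - 1) * ‖HH α k‖ ^ 2 := by
  have hp := (pars ha).summable
  have i1 : Function.Injective (fun k : ℕ => (2 * (k : ℤ) + 2)) := fun a b h => by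
    simp only at h; omega
  have i2 : Function.Injective (fun k : ℕ => -(2 * (k : ℤ) + 2)) := fun a b h => by
    simp only at h; omega
  have s1 : Summable fun k : ℕ => ‖fc α (2 * (k : ℤ) + 2)‖ ^ 2 := hp.comp_injective i1
  have s2 : Summable fun k : ℕ => ‖fc α (-(2 * (k : ℤ) + 2))‖ ^ 2 := hp.comp_injective i2
  exact Summable.of_nonneg_of_le (fun k => mul_nonneg (lk_sq k).le (sq_nonneg _)) (fun k => HH_sq k)
    (s1.add (s2.mul_left 2))

theorem HH_le {α : ℝ → ℂ} {E : ℝ} (ha : BM α E) (k : ℕ) : ‖HH α k‖ ≤ E := by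
  have hl := lk_ge k
  have h1 := fc_le ha (2 * (k : ℤ) + 2)
  have h2 := fc_le ha (-(2 * (k : ℤ) + 2))
  unfold HH
  rw [norm_div, Complex.norm_ofNat]
  have h3 : ‖fc α (2 * (k : ℤ) + 2) / ((lk k + 1 : ℝ) : ℂ)‖ ≤ E := by
    rw [norm_div, Complex.norm_real, Real.norm_of_nonneg (by linarith)]
    exact (div_le_self (norm_nonneg _) (by linarith)).trans h1
  have h4 : ‖(starRingEnd ℂ) (fc α (-(2 * (k : ℤ) + 2))) / ((lk k - 1 : ℝ) : ℂ)‖ ≤ E := by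
    rw [norm_div, Complex.norm_conj, Complex.norm_real, Real.norm_of_nonneg (by linarith)]
    exact (div_le_self (norm_nonneg _) (by linarith)).trans h2
  have h5 := norm_sub_le (fc α (2 * (k : ℤ) + 2) / ((lk k + 1 : ℝ) : ℂ))
    ((starRingEnd ℂ) (fc α (-(2 * (k : ℤ) + 2))) / ((lk k - 1 : ℝ) : ℂ))
  rw [div_le_iff₀ (by norm_num)]
  linarith

theorem re_mul_conj_le (z w : ℂ) : |(z * (starRingEnd ℂ) w).re| ≤ ‖z‖ * ‖w‖ := by
  refine (Complex.abs_re_le_norm _).trans ?_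
  rw [norm_mul, Complex.norm_conj]

/-- THE ROUGH COUPLING (D): the coupling of the segments with the two families at the true angles. -/
theorem del {α : ℝ → ℂ} {E ρ ρ0 ν e00 : ℝ} (ha : BM α E) (hpa : ∀ t, α (t + Real.pi) = α t)
    (h1 : BM g1 D) (h2 : BM g2 D) (n1 : Measurable φ1) (n2 : Measurable φ2)
    (d1 : DensI φ1 ρ) (d2 : DensI φ2 ρ) (hν : 0 < ν) (e0 : ℕ → ℂ) (hs0 : Summable fun k => ‖e0 k‖)
    (hd : ∀ s, e00 + 2 * ∑' k, (e0 k * ee (lk k * s)).re ≤ ρ0)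
    (hsr : Summable fun k => ‖eM g1 g2 φ1 φ2 (lk k) - e0 k‖ ^ 2 / (lk k ^ 2 - 1)) :
    (fc α 0).re * (eM g1 g2 φ1 φ2 0).re
      + 2 * ∑' k, (HH α k * (starRingEnd ℂ) (e0 k)).re
      + ∑' k, (HH α k * (starRingEnd ℂ) (eM g1 g2 φ1 φ2 (lk k) - e0 k)).re
      - 1 / ν * ∑' k, (lk k ^ 2 - 1) * ‖HH α k‖ ^ 2
      - ν / 4 * ∑' k, ‖eM g1 g2 φ1 φ2 (lk k) - e0 k‖ ^ 2 / (lk k ^ 2 - 1)
      + (fc α 0).re * GM g1 g2 φ1 φ2
      - ν / 2 * (ρ0 + ((eM g1 g2 φ1 φ2 0).re - e00) + GM g1 g2 φ1 φ2) * GM g1 g2 φ1 φ2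
      ≤ L2b α g1 g2 (al g1) (al g2) := by
  obtain ⟨L, hL0, hL⟩ := sign_fam h1 h2 n1 n2 d1 d2
  have hT := L2b_true (g1 := g1) (g2 := g2) ha hpa h1 h2
  have hG := GM_eq h1 h2 n1 n2
  set G := GM g1 g2 φ1 φ2 with hGdef
  set s : ℕ → ℂ := fun k => sM g1 g2 (lk k) with hs
  set e : ℕ → ℂ := fun k => eM g1 g2 φ1 φ2 (lk k) with he
  set er : ℕ → ℂ := fun k => eM g1 g2 φ1 φ2 (lk k) - e0 k with her
  have S1 := HH_summable ha
  have S2 : Summable fun k => (HH α k * (starRingEnd ℂ) (e0 k)).re := by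
    refine Summable.of_norm_bounded (hs0.mul_left E) fun k => ?_
    rw [Real.norm_eq_abs]
    exact (re_mul_conj_le _ _).trans (mul_le_mul_of_nonneg_right (HH_le ha k) (norm_nonneg _))
  have S3 : Summable fun k => (HH α k * (starRingEnd ℂ) (er k)).re := by
    refine Summable.of_norm_bounded (S1.add hsr) fun k => ?_
    rw [Real.norm_eq_abs]
    refine (re_mul_conj_le _ _).trans ?_
    have hm := lk_sq k
    have h5 : 0 ≤ (lk k ^ 2 - 1) * ‖HH α k‖ ^ 2 - 2 * (‖HH α k‖ * ‖er k‖) + ‖er k‖ ^ 2 / (lk k ^ 2 - 1) := by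
      have : (lk k ^ 2 - 1) * ‖HH α k‖ ^ 2 - 2 * (‖HH α k‖ * ‖er k‖) + ‖er k‖ ^ 2 / (lk k ^ 2 - 1)
          = (lk k ^ 2 - 1) * (‖HH α k‖ - ‖er k‖ / (lk k ^ 2 - 1)) ^ 2 := by
        field_simp
        ring
      rw [this]; positivity
    have h6 : 0 ≤ ‖HH α k‖ * ‖er k‖ := by positivity
    show ‖HH α k‖ * ‖er k‖ ≤ (lk k ^ 2 - 1) * ‖HH α k‖ ^ 2 + ‖er k‖ ^ 2 / (lk k ^ 2 - 1)
    linarith
  -- tails of the base density
  set t : ℕ → ℝ := fun N => (∑' k, ‖e0 k‖) - ∑ k ∈ Finset.range N, ‖e0 k‖ with ht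
  have htl : Tendsto t atTop (𝓝 0) := by
    have := (hs0.hasSum.tendsto_sum_nat).const_sub (∑' k, ‖e0 k‖)
    rw [sub_self] at this
    exact this
  have hsd : ∀ x : ℝ, Summable fun k => (e0 k * ee (lk k * x)).re := by
    intro x
    refine Summable.of_norm_bounded hs0 fun k => ?_
    rw [Real.norm_eq_abs]
    refine (Complex.abs_re_le_norm _).trans (le_of_eq ?_)
    rw [norm_mul, norm_ee, mul_one]
  have hdN : ∀ N x, dN e00 e0 N x ≤ ρ0 + 2 * t N := by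
    intro N x
    have h5 := hd x
    have h6 := (hsd x).sum_add_tsum_nat_add N
    have h7 := hs0.sum_add_tsum_nat_add N
    have h8 : -(∑' k, ‖e0 (k + N)‖) ≤ ∑' k, (e0 (k + N) * ee (lk (k + N) * x)).re := by
      rw [← tsum_neg]
      refine Summable.tsum_le_tsum (fun k => ?_) ((summable_nat_add_iff N).2 hs0).neg
        ((summable_nat_add_iff N).2 (hsd x))
      have h9 : |(e0 (k + N) * ee (lk (k + N) * x)).re| ≤ ‖e0 (k + N)‖ := by
        refine (Complex.abs_re_le_norm _).trans (le_of_eq ?_)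
        rw [norm_mul, norm_ee, mul_one]
      exact (abs_le.1 h9).1
    unfold dN
    rw [ht]
    simp only
    linarith
  -- the inequality for finite sums
  have hN : ∀ N : ℕ, (fc α 0).re * (eM g1 g2 φ1 φ2 0).re + (fc α 0).re * G
      - ν / 2 * ((ρ0 + 2 * t N) + ((eM g1 g2 φ1 φ2 0).re - e00) + G) * G
      + ∑ k ∈ Finset.range N, (2 * (HH α k * (starRingEnd ℂ) (e0 k)).re + (HH α k * (starRingEnd ℂ) (er k)).re
        - 1 / ν * ((lk k ^ 2 - 1) * ‖HH α k‖ ^ 2) - ν / 4 * (‖er k‖ ^ 2 / (lk k ^ 2 - 1)))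
      ≤ ((fc α 0).re * (sM g1 g2 0).re
        + ∑ k ∈ Finset.range N, 2 * (HH α k * (starRingEnd ℂ) (s k)).re)
      - ν / 2 * ((sM g1 g2 0).re * ((sM g1 g2 0).re - (eM g1 g2 φ1 φ2 0).re)
        - 2 * ∑ k ∈ Finset.range N, ((s k - e k) * (starRingEnd ℂ) (s k)).re / (lk k ^ 2 - 1)) := by
    intro N
    have hB := base_le h1 h2 n1 n2 (hdN N)
    rw [← hGdef] at hB
    have hs' : (sM g1 g2 0).re = (eM g1 g2 φ1 φ2 0).re + G := by linarith
    have hsum := Finset.sum_le_sum fun k (_ : k ∈ Finset.range N) =>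
      sq_k hν (lk_sq k) (HH α k) (e0 k) (er k) (s k)
    have hek : ∀ k, e0 k + er k = e k := fun k => by rw [her, he]; simp only; ring
    simp_rw [hek] at hsum
    rw [Finset.sum_add_distrib, Finset.sum_add_distrib] at hsum
    have f1 : ∑ k ∈ Finset.range N, ν * ((s k - e k) * (starRingEnd ℂ) (e0 k)).re / (lk k ^ 2 - 1)
        = ν * ∑ k ∈ Finset.range N, ((s k - e k) * (starRingEnd ℂ) (e0 k)).re / (lk k ^ 2 - 1) := by
      rw [Finset.mul_sum]; exact Finset.sum_congr rfl fun k _ => by ring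
    have f2 : ∑ k ∈ Finset.range N, ν * ((s k - e k) * (starRingEnd ℂ) (s k)).re / (lk k ^ 2 - 1)
        = ν * ∑ k ∈ Finset.range N, ((s k - e k) * (starRingEnd ℂ) (s k)).re / (lk k ^ 2 - 1) := by
      rw [Finset.mul_sum]; exact Finset.sum_congr rfl fun k _ => by ring
    rw [f1, f2] at hsum
    rw [hs']
    have hB' := mul_le_mul_of_nonneg_left hB (by positivity : (0 : ℝ) ≤ ν / 2)
    have hB2 : ν / 2 * (e00 * G - 2 * ∑ k ∈ Finset.range N,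
        ((s k - e k) * (starRingEnd ℂ) (e0 k)).re / (lk k ^ 2 - 1)) ≤ ν / 2 * ((ρ0 + 2 * t N) * G) := hB'
    nlinarith [hsum, hB2]
  -- limits
  have lim1 : Tendsto (fun N : ℕ => ((fc α 0).re * (sM g1 g2 0).re
        + ∑ k ∈ Finset.range N, 2 * (HH α k * (starRingEnd ℂ) (s k)).re)
      - ν / 2 * ((sM g1 g2 0).re * ((sM g1 g2 0).re - (eM g1 g2 φ1 φ2 0).re)
        - 2 * ∑ k ∈ Finset.range N, ((s k - e k) * (starRingEnd ℂ) (s k)).re / (lk k ^ 2 - 1))) atTop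
      (𝓝 (L2b α g1 g2 (al g1) (al g2) - ν / 2 * L)) := hT.sub (hL.const_mul _)
  have S4 : Summable fun k => 2 * (HH α k * (starRingEnd ℂ) (e0 k)).re + (HH α k * (starRingEnd ℂ) (er k)).re
        - 1 / ν * ((lk k ^ 2 - 1) * ‖HH α k‖ ^ 2) - ν / 4 * (‖er k‖ ^ 2 / (lk k ^ 2 - 1)) :=
    (((S2.mul_left 2).add S3).sub (S1.mul_left _)).sub (hsr.mul_left _)
  have lim2 : Tendsto (fun N : ℕ => (fc α 0).re * (eM g1 g2 φ1 φ2 0).re + (fc α 0).re * G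
      - ν / 2 * ((ρ0 + 2 * t N) + ((eM g1 g2 φ1 φ2 0).re - e00) + G) * G
      + ∑ k ∈ Finset.range N, (2 * (HH α k * (starRingEnd ℂ) (e0 k)).re + (HH α k * (starRingEnd ℂ) (er k)).re
        - 1 / ν * ((lk k ^ 2 - 1) * ‖HH α k‖ ^ 2) - ν / 4 * (‖er k‖ ^ 2 / (lk k ^ 2 - 1)))) atTop
      (𝓝 ((fc α 0).re * (eM g1 g2 φ1 φ2 0).re + (fc α 0).re * G
      - ν / 2 * ((ρ0 + 2 * 0) + ((eM g1 g2 φ1 φ2 0).re - e00) + G) * G
      + ∑' k, (2 * (HH α k * (starRingEnd ℂ) (e0 k)).re + (HH α k * (starRingEnd ℂ) (er k)).re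
        - 1 / ν * ((lk k ^ 2 - 1) * ‖HH α k‖ ^ 2) - ν / 4 * (‖er k‖ ^ 2 / (lk k ^ 2 - 1))))) := by
    refine Tendsto.add (Tendsto.const_sub _ (Tendsto.mul_const _ (Tendsto.const_mul _
      (Tendsto.add_const _ (Tendsto.add_const _ (Tendsto.const_add _ (htl.const_mul 2))))))) ?_
    exact S4.hasSum.tendsto_sum_nat
  have hfin := le_of_tendsto_of_tendsto' lim2 lim1 hN
  have hts : ∑' k, (2 * (HH α k * (starRingEnd ℂ) (e0 k)).re + (HH α k * (starRingEnd ℂ) (er k)).re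
        - 1 / ν * ((lk k ^ 2 - 1) * ‖HH α k‖ ^ 2) - ν / 4 * (‖er k‖ ^ 2 / (lk k ^ 2 - 1)))
      = 2 * ∑' k, (HH α k * (starRingEnd ℂ) (e0 k)).re + ∑' k, (HH α k * (starRingEnd ℂ) (er k)).re
        - 1 / ν * ∑' k, (lk k ^ 2 - 1) * ‖HH α k‖ ^ 2 - ν / 4 * ∑' k, ‖er k‖ ^ 2 / (lk k ^ 2 - 1) := by
    have hh := (((S2.hasSum.mul_left 2).add S3.hasSum).sub (S1.hasSum.mul_left (1 / ν))).sub
      (hsr.hasSum.mul_left (ν / 4))
    exact hh.tsum_eq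
  rw [hts] at hfin
  have hLn : 0 ≤ ν / 2 * L := by positivity
  linarith

end Pool.Agent.Helper85.RC
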