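import Pool.Agent.Helper85.RC.Win1
import Pool.Agent.Helper20.RC.Link2

/-!
# Project RC, track B: the rough term of link 2 in real space

`φ` an alignment, `a` the true angle of `G`, `|a - φ| ≤ π`. `kK x s`, `mK x s` are the window kernels (sine and
cosine), `kap s = ∫ kK x s dx`, `mm s = ∫ mK x s dx`. The rough term is `⟨α₂ kap⟩ - ⟨α₃ mm⟩`.
-/

open MeasureTheory Set Filter

namespace Pool.Agent.Helper85.RC

open Helper49.LT Helper87.RC
open Pool.Agent.Helper20.RC (rg)

/-- the signed window of the element `x` -/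
noncomputable def wnd (φ a : ℝ → ℝ) (x s : ℝ) : ℝ :=
  if φ x < s ∧ s < a x then 1 else if a x < s ∧ s < φ x then -1 else 0

/-- the cosine kernel -/
noncomputable def mK (G : ℝ → ℂ) (φ a : ℝ → ℝ) (x s : ℝ) : ℝ := ‖G x‖ * Real.cos (a x - s) * wnd φ a x s

/-- the sine kernel -/
noncomputable def kK (G : ℝ → ℂ) (φ a : ℝ → ℝ) (x s : ℝ) : ℝ := ‖G x‖ * Real.sin (a x - s) * wnd φ a x s

/-- the integrated kernels -/
noncomputable def mm (G : ℝ → ℂ) (φ a : ℝ → ℝ) (s : ℝ) : ℝ := ∫ x, mK G φ a x s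
noncomputable def kap (G : ℝ → ℂ) (φ a : ℝ → ℝ) (s : ℝ) : ℝ := ∫ x, kK G φ a x s

/-- the data -/
structure Ali (G : ℝ → ℂ) (φ a : ℝ → ℝ) (C K : ℝ) : Prop where
  mG : Measurable G
  bG : ∀ x, ‖G x‖ ≤ C
  pG : ∀ x, G (x + 2 * Real.pi) = G x
  mφ : Measurable φ
  pφ : ∀ x, φ (x + 2 * Real.pi) = φ x + 2 * Real.pi
  nφ : ∀ x, |φ x - x| ≤ K
  ma : Measurable a
  pa : ∀ x, a (x + 2 * Real.pi) = a x + 2 * Real.pi
  na : ∀ x, |a x - φ x| ≤ Real.pi

variable {G : ℝ → ℂ} {φ a : ℝ → ℝ} {C K : ℝ}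

theorem wnd_abs (φ a : ℝ → ℝ) (x s : ℝ) : |wnd φ a x s| ≤ 1 := by
  unfold wnd
  split_ifs <;> simp

theorem wnd_meas (mφ : Measurable φ) (ma : Measurable a) : Measurable (Function.uncurry (wnd φ a)) := by
  have h1 : MeasurableSet {p : ℝ × ℝ | φ p.1 < p.2 ∧ p.2 < a p.1} :=
    (measurableSet_lt (mφ.comp measurable_fst) measurable_snd).inter
      (measurableSet_lt measurable_snd (ma.comp measurable_fst))
  have h2 : MeasurableSet {p : ℝ × ℝ | a p.1 < p.2 ∧ p.2 < φ p.1} :=
    (measurableSet_lt (ma.comp measurable_fst) measurable_snd).inter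
      (measurableSet_lt measurable_snd (mφ.comp measurable_fst))
  exact Measurable.ite h1 measurable_const (Measurable.ite h2 measurable_const measurable_const)

theorem wnd_per (pφ : ∀ x, φ (x + 2 * Real.pi) = φ x + 2 * Real.pi)
    (pa : ∀ x, a (x + 2 * Real.pi) = a x + 2 * Real.pi) (x s : ℝ) :
    wnd φ a (x + 2 * Real.pi) (s + 2 * Real.pi) = wnd φ a x s := by
  unfold wnd
  rw [pφ, pa]
  simp only [add_lt_add_iff_right]

theorem wnd_supp (h : Ali G φ a C K) {x s : ℝ} (hs : K + Real.pi < |x - s|) : wnd φ a x s = 0 := by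
  have h1 := abs_le.1 (h.nφ x)
  have h2 := abs_le.1 (h.na x)
  have hpi := Real.pi_pos
  unfold wnd
  rw [lt_abs] at hs
  rw [if_neg, if_neg]
  · rintro ⟨h3, h4⟩
    rcases hs with h5 | h5 <;> linarith [h1.1, h1.2, h2.1, h2.2]
  · rintro ⟨h3, h4⟩
    rcases hs with h5 | h5 <;> linarith [h1.1, h1.2, h2.1, h2.2]

theorem Ali.C0 (h : Ali G φ a C K) : 0 ≤ C := (norm_nonneg _).trans (h.bG 0)

theorem mK_meas (h : Ali G φ a C K) : Measurable (Function.uncurry (mK G φ a)) := by
  refine Measurable.mul (Measurable.mul (h.mG.norm.comp measurable_fst) ?_) (wnd_meas h.mφ h.ma)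
  exact Real.measurable_cos.comp ((h.ma.comp measurable_fst).sub measurable_snd)

theorem kK_meas (h : Ali G φ a C K) : Measurable (Function.uncurry (kK G φ a)) := by
  refine Measurable.mul (Measurable.mul (h.mG.norm.comp measurable_fst) ?_) (wnd_meas h.mφ h.ma)
  exact Real.measurable_sin.comp ((h.ma.comp measurable_fst).sub measurable_snd)

theorem mK_abs (h : Ali G φ a C K) (x s : ℝ) : |mK G φ a x s| ≤ C := by
  unfold mK
  rw [abs_mul, abs_mul, abs_of_nonneg (norm_nonneg _)]
  calc ‖G x‖ * |Real.cos (a x - s)| * |wnd φ a x s| ≤ C * 1 * 1 :=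
        mul_le_mul (mul_le_mul (h.bG x) (Real.abs_cos_le_one _) (abs_nonneg _) h.C0)
          (wnd_abs _ _ _ _) (abs_nonneg _) (by have := h.C0; positivity)
    _ = C := by ring

theorem kK_abs (h : Ali G φ a C K) (x s : ℝ) : |kK G φ a x s| ≤ C := by
  unfold kK
  rw [abs_mul, abs_mul, abs_of_nonneg (norm_nonneg _)]
  calc ‖G x‖ * |Real.sin (a x - s)| * |wnd φ a x s| ≤ C * 1 * 1 :=
        mul_le_mul (mul_le_mul (h.bG x) (Real.abs_sin_le_one _) (abs_nonneg _) h.C0)
          (wnd_abs _ _ _ _) (abs_nonneg _) (by have := h.C0; positivity)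
    _ = C := by ring

theorem mK_per (h : Ali G φ a C K) (x s : ℝ) :
    mK G φ a (x + 2 * Real.pi) (s + 2 * Real.pi) = mK G φ a x s := by
  unfold mK
  rw [wnd_per h.pφ h.pa, h.pG, h.pa, add_sub_add_right_eq_sub]

theorem kK_per (h : Ali G φ a C K) (x s : ℝ) :
    kK G φ a (x + 2 * Real.pi) (s + 2 * Real.pi) = kK G φ a x s := by
  unfold kK
  rw [wnd_per h.pφ h.pa, h.pG, h.pa, add_sub_add_right_eq_sub]

theorem mK_supp (h : Ali G φ a C K) {x s : ℝ} (hs : K + Real.pi < |x - s|) : mK G φ a x s = 0 := by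
  unfold mK; rw [wnd_supp h hs, mul_zero]

theorem kK_supp (h : Ali G φ a C K) {x s : ℝ} (hs : K + Real.pi < |x - s|) : kK G φ a x s = 0 := by
  unfold kK; rw [wnd_supp h hs, mul_zero]

/-- the sine kernel is nonnegative -/
theorem kK_nonneg (h : Ali G φ a C K) (x s : ℝ) : 0 ≤ kK G φ a x s := by
  have h2 := abs_le.1 (h.na x)
  unfold kK wnd
  split_ifs with h3 h4
  · rw [mul_one]
    exact mul_nonneg (norm_nonneg _) (Real.sin_nonneg_of_nonneg_of_le_pi (by linarith [h3.2])
      (by linarith [h3.1, h2.2]))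
  · have h5 : Real.sin (a x - s) ≤ 0 := Real.sin_nonpos_of_nonpos_of_neg_pi_le (by linarith [h4.1])
      (by linarith [h4.2, h2.1])
    have := mul_nonneg (norm_nonneg (G x)) (neg_nonneg.2 h5)
    linarith
  · rw [mul_zero]

/-- an integral over the window -/
theorem int_wnd {f : ℝ → ℝ} (x : ℝ) :
    ∫ s in (φ x)..(a x), f s = ∫ s, f s * wnd φ a x s := by
  rcases le_total (φ x) (a x) with h | h
  · rw [intervalIntegral.integral_of_le h, integral_Ioc_eq_integral_Ioo,
      ← integral_indicator measurableSet_Ioo]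
    refine integral_congr_ae (Eventually.of_forall fun s => ?_)
    show (Ioo (φ x) (a x)).indicator f s = f s * wnd φ a x s
    unfold wnd
    by_cases h1 : φ x < s ∧ s < a x
    · rw [indicator_of_mem (show s ∈ Ioo (φ x) (a x) from h1), if_pos h1, mul_one]
    · rw [indicator_of_notMem (show s ∉ Ioo (φ x) (a x) from h1), if_neg h1, if_neg, mul_zero]
      rintro ⟨h2, h3⟩; linarith
  · rw [intervalIntegral.integral_of_ge h, integral_Ioc_eq_integral_Ioo,
      ← integral_indicator measurableSet_Ioo, ← integral_neg]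
    refine integral_congr_ae (Eventually.of_forall fun s => ?_)
    show -((Ioo (a x) (φ x)).indicator f s) = f s * wnd φ a x s
    unfold wnd
    by_cases h1 : a x < s ∧ s < φ x
    · rw [indicator_of_mem (show s ∈ Ioo (a x) (φ x) from h1), if_neg, if_pos h1]
      · ring
      · rintro ⟨h2, h3⟩; linarith
    · rw [indicator_of_notMem (show s ∉ Ioo (a x) (φ x) from h1), if_neg, if_neg h1, neg_zero, mul_zero]
      rintro ⟨h2, h3⟩; linarith

/-- pairing with a bounded periodic function: unfolding -/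
theorem unf {Kf : ℝ → ℝ → ℝ} {D R V : ℝ} {v : ℝ → ℝ} (hm : Measurable (Function.uncurry Kf))
    (hb : ∀ x s, |Kf x s| ≤ D) (hR : ∀ x s, R < |x - s| → Kf x s = 0)
    (hp : ∀ x s, Kf (x + 2 * Real.pi) (s + 2 * Real.pi) = Kf x s) (vm : Measurable v)
    (vb : ∀ s, |v s| ≤ V) (vp : ∀ s, v (s + 2 * Real.pi) = v s) :
    ∫ x in (0 : ℝ)..(2 * Real.pi), ∫ s, v s * Kf x s
      = ∫ s in (0 : ℝ)..(2 * Real.pi), v s * ∫ x, Kf x s := by
  have hV : 0 ≤ V := (abs_nonneg _).trans (vb 0)
  have h := unfold_per (F := fun x s => v s * Kf x s) (C := V * D) (R := R)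
    ((vm.comp measurable_snd).mul hm)
    (fun x s => by
      rw [abs_mul]
      exact mul_le_mul (vb s) (hb x s) (abs_nonneg _) hV)
    (fun x s h1 => by rw [hR x s h1, mul_zero])
    (fun x s => by rw [hp, vp])
  rw [h]
  refine intervalIntegral.integral_congr fun s _ => ?_
  show ∫ x, v s * Kf x s = v s * ∫ x, Kf x s
  exact integral_const_mul _ _

/-- the rough term of one element -/
theorem rg_eq (h : Ali G φ a C K) {α : ℝ → ℂ} {E : ℝ} (ha : BM α E) (x : ℝ) :
    rg α ‖G x‖ (φ x) (a x) = (∫ s, (α s).re * kK G φ a x s) - ∫ s, (α s).im * mK G φ a x s := by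
  have i1 : IntervalIntegrable (fun s => (α s).re * Real.sin (a x - s)) volume (φ x) (a x) :=
    Pool.Agent.Helper20.RC.intg_real (C := E * 1)
      ((Complex.measurable_re.comp ha.m).mul (Real.measurable_sin.comp (measurable_const.sub measurable_id)))
      (fun t => by
        show |(α t).re * Real.sin (a x - t)| ≤ E * 1
        rw [abs_mul]
        exact mul_le_mul ((Complex.abs_re_le_norm _).trans (ha.b t)) (Real.abs_sin_le_one _)
          (abs_nonneg _) ha.C0) _ _
  have i2 : IntervalIntegrable (fun s => (α s).im * Real.cos (a x - s)) volume (φ x) (a x) :=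
    Pool.Agent.Helper20.RC.intg_real (C := E * 1)
      ((Complex.measurable_im.comp ha.m).mul (Real.measurable_cos.comp (measurable_const.sub measurable_id)))
      (fun t => by
        show |(α t).im * Real.cos (a x - t)| ≤ E * 1
        rw [abs_mul]
        exact mul_le_mul ((Complex.abs_im_le_norm _).trans (ha.b t)) (Real.abs_cos_le_one _)
          (abs_nonneg _) ha.C0) _ _
  unfold rg
  rw [intervalIntegral.integral_sub i1 i2, mul_sub, int_wnd, int_wnd, ← integral_const_mul,
    ← integral_const_mul]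
  congr 1
  · refine integral_congr_ae (Eventually.of_forall fun s => ?_)
    show ‖G x‖ * ((α s).re * Real.sin (a x - s) * wnd φ a x s) = (α s).re * kK G φ a x s
    unfold kK; ring
  · refine integral_congr_ae (Eventually.of_forall fun s => ?_)
    show ‖G x‖ * ((α s).im * Real.cos (a x - s) * wnd φ a x s) = (α s).im * mK G φ a x s
    unfold mK; ring

theorem int_bd_of {H : ℝ → ℝ} {s D R : ℝ} (hR0 : 0 ≤ R) (h3 : ∀ x, |H x| ≤ D)
    (h4 : ∀ x, R < |x - s| → H x = 0) : |∫ x, H x| ≤ D * (2 * R) := by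
  have e : ∫ x, H x = ∫ x in Icc (s - R) (s + R), H x := by
    rw [← setIntegral_univ]
    refine (setIntegral_eq_of_subset_of_forall_sdiff_eq_zero MeasurableSet.univ
      (subset_univ _) fun x hx => ?_)
    refine h4 x ?_
    have h := hx.2
    rw [lt_abs]
    rw [mem_Icc, not_and_or, not_le, not_le] at h
    rcases h with h | h
    · right; linarith
    · left; linarith
  rw [e, ← Real.norm_eq_abs]
  refine (norm_setIntegral_le_of_norm_le_const (C := D) (by simp) fun x _ => by
    rw [Real.norm_eq_abs]; exact h3 x).trans ?_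
  rw [Measure.real, Real.volume_Icc, ENNReal.toReal_ofReal (by linarith)]
  exact le_of_eq (by ring)

theorem Ali.K0 (h : Ali G φ a C K) : 0 ≤ K := (abs_nonneg _).trans (h.nφ 0)

theorem mm_abs (h : Ali G φ a C K) (s : ℝ) : |mm G φ a s| ≤ C * (2 * (K + Real.pi)) :=
  int_bd_of (s := s) (by have := h.K0; have := Real.pi_pos; positivity) (fun x => mK_abs h x s)
    (fun _ hx => mK_supp h hx)

theorem kap_abs (h : Ali G φ a C K) (s : ℝ) : |kap G φ a s| ≤ C * (2 * (K + Real.pi)) :=
  int_bd_of (s := s) (by have := h.K0; have := Real.pi_pos; positivity) (fun x => kK_abs h x s)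
    (fun _ hx => kK_supp h hx)

theorem kap_nonneg (h : Ali G φ a C K) (s : ℝ) : 0 ≤ kap G φ a s :=
  integral_nonneg fun x => kK_nonneg h x s

theorem mm_meas (h : Ali G φ a C K) : Measurable (mm G φ a) :=
  ((mK_meas h).comp measurable_swap).stronglyMeasurable.integral_prod_right'.measurable

theorem kap_meas (h : Ali G φ a C K) : Measurable (kap G φ a) :=
  ((kK_meas h).comp measurable_swap).stronglyMeasurable.integral_prod_right'.measurable

theorem per_of {Kf : ℝ → ℝ → ℝ} (hp : ∀ x s, Kf (x + 2 * Real.pi) (s + 2 * Real.pi) = Kf x s) (s : ℝ) :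
    ∫ x, Kf x (s + 2 * Real.pi) = ∫ x, Kf x s := by
  rw [← integral_add_right_eq_self (fun x => Kf x (s + 2 * Real.pi)) (2 * Real.pi)]
  exact integral_congr_ae (Eventually.of_forall fun x => hp x s)

theorem mm_per (h : Ali G φ a C K) (s : ℝ) : mm G φ a (s + 2 * Real.pi) = mm G φ a s :=
  per_of (fun x s => mK_per h x s) s

theorem kap_per (h : Ali G φ a C K) (s : ℝ) : kap G φ a (s + 2 * Real.pi) = kap G φ a s :=
  per_of (fun x s => kK_per h x s) s

/-- REDUCTION: the rough term in real space, one family -/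
theorem red1 (h : Ali G φ a C K) {α : ℝ → ℂ} {E : ℝ} (ha : BM α E)
    (hp : ∀ t, α (t + 2 * Real.pi) = α t) :
    ∫ x in (0 : ℝ)..(2 * Real.pi), rg α ‖G x‖ (φ x) (a x)
      = (∫ s in (0 : ℝ)..(2 * Real.pi), (α s).re * kap G φ a s)
        - ∫ s in (0 : ℝ)..(2 * Real.pi), (α s).im * mm G φ a s := by
  have hpi := Real.pi_pos
  have hKp : 0 ≤ K + Real.pi := by have := h.K0; positivity
  have hre : ∀ t, |(α t).re| ≤ E := fun t => (Complex.abs_re_le_norm _).trans (ha.b t)
  have him : ∀ t, |(α t).im| ≤ E := fun t => (Complex.abs_im_le_norm _).trans (ha.b t)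
  have mre : Measurable fun t => (α t).re := Complex.measurable_re.comp ha.m
  have mim : Measurable fun t => (α t).im := Complex.measurable_im.comp ha.m
  have u1 := unf (kK_meas h) (kK_abs h) (fun x s hs => kK_supp h hs) (kK_per h) mre hre
    (fun s => by rw [hp])
  have u2 := unf (mK_meas h) (mK_abs h) (fun x s hs => mK_supp h hs) (mK_per h) mim him
    (fun s => by rw [hp])
  have e1 : ∫ x in (0 : ℝ)..(2 * Real.pi), rg α ‖G x‖ (φ x) (a x)
      = ∫ x in (0 : ℝ)..(2 * Real.pi), ((∫ s, (α s).re * kK G φ a x s) - ∫ s, (α s).im * mK G φ a x s) :=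
    intervalIntegral.integral_congr fun x _ => rg_eq h ha x
  have ii : ∀ {v : ℝ → ℝ} {Kf : ℝ → ℝ → ℝ}, Measurable v → (∀ t, |v t| ≤ E) →
      Measurable (Function.uncurry Kf) → (∀ x s, |Kf x s| ≤ C) →
      (∀ x s, K + Real.pi < |x - s| → Kf x s = 0) →
      IntervalIntegrable (fun x => ∫ s, v s * Kf x s) volume 0 (2 * Real.pi) := by
    intro v Kf vm vb hm hb hR
    refine Pool.Agent.Helper20.RC.intg_real (C := (E * C) * (2 * (K + Real.pi))) ?_ ?_ _ _
    · exact ((vm.comp measurable_snd).mul hm).stronglyMeasurable.integral_prod_right'.measurable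
    · intro x
      refine int_bd_of (s := x) hKp (fun s => ?_) (fun s hs => ?_)
      · rw [abs_mul]
        exact mul_le_mul (vb s) (hb x s) (abs_nonneg _) ha.C0
      · rw [hR x s (by rwa [abs_sub_comm]), mul_zero]
  rw [e1, intervalIntegral.integral_sub
    (ii mre hre (kK_meas h) (kK_abs h) (fun x s hs => kK_supp h hs))
    (ii mim him (mK_meas h) (mK_abs h) (fun x s hs => mK_supp h hs)), u1, u2]
  rfl

/-- the mean of `kap` is the mean of the gain -/
theorem kap_mean (h : Ali G φ a C K) :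
    ∫ s in (0 : ℝ)..(2 * Real.pi), kap G φ a s
      = ∫ x in (0 : ℝ)..(2 * Real.pi), ‖G x‖ * (1 - Real.cos (a x - φ x)) := by
  have u1 := unf (kK_meas h) (kK_abs h) (fun x s hs => kK_supp h hs) (kK_per h)
    (v := fun _ => 1) measurable_const (V := 1) (fun s => by simp) (fun s => rfl)
  have e2 : ∫ s in (0 : ℝ)..(2 * Real.pi), kap G φ a s
      = ∫ s in (0 : ℝ)..(2 * Real.pi), 1 * ∫ x, kK G φ a x s :=
    intervalIntegral.integral_congr fun s _ => by
      show kap G φ a s = 1 * ∫ x, kK G φ a x s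
      rw [one_mul]; rfl
  rw [e2, ← u1]
  refine intervalIntegral.integral_congr fun x _ => ?_
  show ∫ s, 1 * kK G φ a x s = ‖G x‖ * (1 - Real.cos (a x - φ x))
  have e3 : ∫ s, 1 * kK G φ a x s = ∫ s, (‖G x‖ * Real.sin (a x - s)) * wnd φ a x s :=
    integral_congr_ae (Eventually.of_forall fun s => by
      show 1 * kK G φ a x s = (‖G x‖ * Real.sin (a x - s)) * wnd φ a x s
      unfold kK; ring)
  rw [e3, ← int_wnd, intervalIntegral.integral_const_mul]
  congr 1
  rw [intervalIntegral.integral_comp_sub_left (fun s => Real.sin s), integral_sin, sub_self,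
    Real.cos_zero]

end Pool.Agent.Helper85.RC
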