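import Mathlib

/-!
# Project RC, track B: the window lemma (bathtub estimate), abstract form

`φ` is an increasing alignment with `φ (x + 2π) = φ x + 2π`; `K x s ≥ 0` is the density with which the element `x`
covers the direction `s`; it vanishes unless `φ x < s < φ x + π` (right windows). If `K x s ≤ c x` and the measure
`c` has at most the density `r x` after `x` in the variable `φ`, then
`∫ (∫ K x s dx)² ds ≤ 2 ∫ r x (∫ K x s (s - φ x) ds) dx`.
-/

open MeasureTheory Set Filter

namespace Pool.Agent.Helper85.RC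

/-- the bathtub inequality -/
theorem sq_le_two {f m : ℝ → ℝ} (hf : Integrable f) (h0 : ∀ x, 0 ≤ f x)
    (hm : ∀ x, f x ≠ 0 → ∫ y in Ioi x, f y ≤ m x) (hfm : Integrable (fun x => f x * m x)) :
    (∫ x, f x) ^ 2 ≤ 2 * ∫ x, f x * m x := by
  have hprod : Integrable (fun p : ℝ × ℝ => f p.1 * f p.2) (volume.prod volume) :=
    hf.mul_prod hf
  have hS : MeasurableSet {p : ℝ × ℝ | p.1 < p.2} := measurableSet_lt measurable_fst measurable_snd
  have hT : MeasurableSet {p : ℝ × ℝ | p.2 ≤ p.1} := measurableSet_le measurable_snd measurable_fst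
  have hi1 := hprod.indicator hS
  have hi2 := hprod.indicator hT
  have e1 : ∀ x : ℝ, ∫ y, ({p : ℝ × ℝ | p.1 < p.2}.indicator (fun p : ℝ × ℝ => f p.1 * f p.2)) (x, y)
      = f x * ∫ y in Ioi x, f y := by
    intro x
    rw [← integral_const_mul, ← integral_indicator measurableSet_Ioi]
    refine integral_congr_ae (Eventually.of_forall fun y => ?_)
    show ({p : ℝ × ℝ | p.1 < p.2}.indicator (fun p : ℝ × ℝ => f p.1 * f p.2)) (x, y)
      = (Ioi x).indicator (fun a => f x * f a) y
    by_cases h : x < y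
    · rw [indicator_of_mem (show (x, y) ∈ {p : ℝ × ℝ | p.1 < p.2} from h),
        indicator_of_mem (show y ∈ Ioi x from h)]
    · rw [indicator_of_notMem (show (x, y) ∉ {p : ℝ × ℝ | p.1 < p.2} from h),
        indicator_of_notMem (show y ∉ Ioi x from h)]
  have e2 : ∀ x : ℝ, ∫ y, ({p : ℝ × ℝ | p.2 ≤ p.1}.indicator (fun p : ℝ × ℝ => f p.1 * f p.2)) (x, y)
      = f x * ∫ y in Iic x, f y := by
    intro x
    rw [← integral_const_mul, ← integral_indicator measurableSet_Iic]
    refine integral_congr_ae (Eventually.of_forall fun y => ?_)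
    show ({p : ℝ × ℝ | p.2 ≤ p.1}.indicator (fun p : ℝ × ℝ => f p.1 * f p.2)) (x, y)
      = (Iic x).indicator (fun a => f x * f a) y
    by_cases h : y ≤ x
    · rw [indicator_of_mem (show (x, y) ∈ {p : ℝ × ℝ | p.2 ≤ p.1} from h),
        indicator_of_mem (show y ∈ Iic x from h)]
    · rw [indicator_of_notMem (show (x, y) ∉ {p : ℝ × ℝ | p.2 ≤ p.1} from h),
        indicator_of_notMem (show y ∉ Iic x from h)]
  have e3 : ∀ y : ℝ, ∫ x, ({p : ℝ × ℝ | p.2 ≤ p.1}.indicator (fun p : ℝ × ℝ => f p.1 * f p.2)) (x, y)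
      = f y * ∫ x in Ioi y, f x := by
    intro y
    rw [← integral_Ici_eq_integral_Ioi, ← integral_const_mul, ← integral_indicator measurableSet_Ici]
    refine integral_congr_ae (Eventually.of_forall fun x => ?_)
    show ({p : ℝ × ℝ | p.2 ≤ p.1}.indicator (fun p : ℝ × ℝ => f p.1 * f p.2)) (x, y)
      = (Ici y).indicator (fun a => f y * f a) x
    by_cases h : y ≤ x
    · rw [indicator_of_mem (show (x, y) ∈ {p : ℝ × ℝ | p.2 ≤ p.1} from h),
        indicator_of_mem (show x ∈ Ici y from h)]
      exact mul_comm _ _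
    · rw [indicator_of_notMem (show (x, y) ∉ {p : ℝ × ℝ | p.2 ≤ p.1} from h),
        indicator_of_notMem (show x ∉ Ici y from h)]
  have i1 : Integrable (fun x => f x * ∫ y in Ioi x, f y) := by
    have := hi1.integral_prod_left
    simpa only [e1] using this
  have i2 : Integrable (fun x => f x * ∫ y in Iic x, f y) := by
    have := hi2.integral_prod_left
    simpa only [e2] using this
  have hswap : ∫ x, (f x * ∫ y in Iic x, f y) = ∫ x, (f x * ∫ y in Ioi x, f y) := by
    have h1 : ∫ x, (f x * ∫ y in Iic x, f y) = ∫ x, ∫ y,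
        ({p : ℝ × ℝ | p.2 ≤ p.1}.indicator (fun p : ℝ × ℝ => f p.1 * f p.2)) (x, y) :=
      integral_congr_ae (Eventually.of_forall fun x => (e2 x).symm)
    rw [h1, integral_integral_swap (f := fun x y =>
      ({p : ℝ × ℝ | p.2 ≤ p.1}.indicator (fun p : ℝ × ℝ => f p.1 * f p.2)) (x, y)) hi2]
    exact integral_congr_ae (Eventually.of_forall fun y => e3 y)
  have hsum : (∫ x, f x) ^ 2 = (∫ x, (f x * ∫ y in Iic x, f y)) + ∫ x, (f x * ∫ y in Ioi x, f y) := by
    rw [← integral_add i2 i1, sq, ← integral_mul_const]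
    refine integral_congr_ae (Eventually.of_forall fun x => ?_)
    show f x * ∫ y, f y = f x * (∫ y in Iic x, f y) + f x * ∫ y in Ioi x, f y
    rw [← mul_add, intervalIntegral.integral_Iic_add_Ioi hf.integrableOn hf.integrableOn]
  rw [hsum, hswap, ← two_mul]
  refine mul_le_mul_of_nonneg_left (integral_mono i1 hfm fun x => ?_) (by norm_num)
  by_cases h : f x = 0
  · simp [h]
  · exact mul_le_mul_of_nonneg_left (hm x h) (h0 x)

/-- unfolding: the diagonal action of the period -/
theorem unfold_per {F : ℝ → ℝ → ℝ} {C R : ℝ} (hm : Measurable (Function.uncurry F))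
    (hb : ∀ x s, |F x s| ≤ C) (hR : ∀ x s, R < |x - s| → F x s = 0)
    (hp : ∀ x s, F (x + 2 * Real.pi) (s + 2 * Real.pi) = F x s) :
    ∫ x in (0 : ℝ)..(2 * Real.pi), ∫ s, F x s = ∫ s in (0 : ℝ)..(2 * Real.pi), ∫ x, F x s := by
  have hpi := Real.pi_pos
  have h2 : (0 : ℝ) ≤ 2 * Real.pi := by positivity
  have hC : 0 ≤ C := (abs_nonneg _).trans (hb 0 0)
  have key : ∀ H : ℝ → ℝ → ℝ, Measurable (Function.uncurry H) → (∀ x t, |H x t| ≤ C) →
      (∀ x t, R < |t| → H x t = 0) →
      ∫ x in (0 : ℝ)..(2 * Real.pi), ∫ t, H x t = ∫ t, ∫ x in (0 : ℝ)..(2 * Real.pi), H x t := by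
    intro H hH1 hH2 hH3
    simp_rw [intervalIntegral.integral_of_le h2]
    refine integral_integral_swap ?_
    have hI : Integrable (fun p : ℝ × ℝ => (1 : ℝ) * (Icc (-R) R).indicator (fun _ => C) p.2)
        ((volume.restrict (Ioc 0 (2 * Real.pi))).prod volume) := by
      have j1 : Integrable (fun _ : ℝ => (1 : ℝ)) (volume.restrict (Ioc 0 (2 * Real.pi))) :=
        integrable_const _
      have j2 : Integrable ((Icc (-R) R).indicator (fun _ : ℝ => C)) volume :=
        (integrable_indicator_iff measurableSet_Icc).2 (integrableOn_const (by simp))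
      exact j1.mul_prod j2
    refine hI.mono' hH1.aestronglyMeasurable (Eventually.of_forall fun p => ?_)
    rw [Real.norm_eq_abs, one_mul]
    by_cases h : p.2 ∈ Icc (-R) R
    · rw [indicator_of_mem h]; exact hH2 _ _
    · rw [indicator_of_notMem h]
      have h3 : R < |p.2| := by
        rw [lt_abs]
        rw [mem_Icc, not_and_or, not_le, not_le] at h
        rcases h with h | h
        · right; linarith
        · left; exact h
      show |H p.1 p.2| ≤ 0
      rw [hH3 _ _ h3, abs_zero]
  have e1 : ∀ x : ℝ, ∫ s, F x s = ∫ t, F x (x - t) := fun x =>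
    (integral_sub_left_eq_self (fun s => F x s) volume x).symm
  have e2 : ∀ s : ℝ, ∫ x, F x s = ∫ t, F (s + t) s := fun s =>
    (integral_add_left_eq_self (fun x => F x s) s).symm
  simp_rw [e1, e2]
  rw [key (fun x t => F x (x - t)) (hm.comp (measurable_fst.prodMk (measurable_fst.sub measurable_snd)))
    (fun x t => hb _ _) (fun x t h => hR _ _ (by rwa [sub_sub_cancel])),
    key (fun s t => F (s + t) s) (hm.comp ((measurable_fst.add measurable_snd).prodMk measurable_fst))
    (fun x t => hb _ _) (fun x t h => hR _ _ (by rwa [add_sub_cancel_left]))]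
  refine integral_congr_ae (Eventually.of_forall fun t => ?_)
  show ∫ x in (0 : ℝ)..(2 * Real.pi), F x (x - t) = ∫ s in (0 : ℝ)..(2 * Real.pi), F (s + t) s
  have hper : Function.Periodic (fun x => F x (x - t)) (2 * Real.pi) := fun x => by
    show F (x + 2 * Real.pi) (x + 2 * Real.pi - t) = F x (x - t)
    rw [show x + 2 * Real.pi - t = x - t + 2 * Real.pi by ring, hp]
  have h3 := intervalIntegral.integral_comp_add_right (a := 0) (b := 2 * Real.pi)
    (fun x => F x (x - t)) t
  have h4 : ∫ s in (0 : ℝ)..(2 * Real.pi), F (s + t) s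
      = ∫ s in (0 : ℝ)..(2 * Real.pi), F (s + t) (s + t - t) :=
    intervalIntegral.integral_congr fun s _ => by
      show F (s + t) s = F (s + t) (s + t - t)
      rw [add_sub_cancel_right]
  rw [h4, h3]
  have h5 := hper.intervalIntegral_add_eq 0 (0 + t)
  rw [zero_add] at h5
  rw [h5]
  congr 1
  ring

/-- a quasi-periodic increasing function stays near the identity -/
theorem near_id {φ : ℝ → ℝ} (hm : Monotone φ) (hp : ∀ x, φ (x + 2 * Real.pi) = φ x + 2 * Real.pi)
    (x : ℝ) : |φ x - x| ≤ |φ 0| + 2 * Real.pi := by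
  have hpi := Real.pi_pos
  have hper : Function.Periodic (fun x => φ x - x) (2 * Real.pi) := fun x => by
    show φ (x + 2 * Real.pi) - (x + 2 * Real.pi) = φ x - x
    rw [hp]; ring
  obtain ⟨y, hy, he⟩ := hper.exists_mem_Ico₀ (by positivity : 0 < 2 * Real.pi) x
  have he' : φ x - x = φ y - y := he
  rw [he']
  have h1 := hm hy.1
  have h2 := hm hy.2.le
  have h3 := hp 0
  rw [zero_add] at h3
  rw [h3] at h2
  have h4 := le_abs_self (φ 0)
  have h5 := neg_abs_le (φ 0)
  rw [abs_le]
  constructor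
  · linarith [hy.2]
  · linarith [hy.1]

/-- surjectivity of the alignment -/
theorem surj_of {φ : ℝ → ℝ} (hc : Continuous φ) (hm : Monotone φ)
    (hp : ∀ x, φ (x + 2 * Real.pi) = φ x + 2 * Real.pi) (s : ℝ) : ∃ x, φ x = s := by
  have h := near_id hm hp
  set D := |φ 0| + 2 * Real.pi with hD
  have h1 := (abs_le.1 (h (s - D))).2
  have h2 := (abs_le.1 (h (s + D))).1
  exact mem_range_of_exists_le_of_exists_ge hc ⟨s - D, by linarith⟩ ⟨s + D, by linarith⟩

/-- THE WINDOW LEMMA, right windows -/
theorem win_right {φ c r : ℝ → ℝ} {K : ℝ → ℝ → ℝ} {Ck Cr : ℝ}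
    (hφc : Continuous φ) (hφm : Monotone φ) (hφp : ∀ x, φ (x + 2 * Real.pi) = φ x + 2 * Real.pi)
    (hcm : Measurable c) (hc0 : ∀ x, 0 ≤ c x) (hcb : ∀ x, c x ≤ Ck)
    (hc : ∀ x y, x ≤ y → φ y < φ x + Real.pi → ∫ t in x..y, c t ≤ r x * (φ y - φ x))
    (hrm : Measurable r) (hrb : ∀ x, |r x| ≤ Cr) (hrp : ∀ x, r (x + 2 * Real.pi) = r x)
    (hKm : Measurable (Function.uncurry K)) (hK0 : ∀ x s, 0 ≤ K x s) (hKc : ∀ x s, K x s ≤ c x)
    (hKp : ∀ x s, K (x + 2 * Real.pi) (s + 2 * Real.pi) = K x s)
    (hKw : ∀ x s, K x s ≠ 0 → φ x < s ∧ s < φ x + Real.pi) :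
    ∫ s in (0 : ℝ)..(2 * Real.pi), (∫ x, K x s) ^ 2
      ≤ 2 * ∫ x in (0 : ℝ)..(2 * Real.pi), r x * ∫ s, K x s * (s - φ x) := by
  have hpi := Real.pi_pos
  have h2 : (0 : ℝ) ≤ 2 * Real.pi := by positivity
  have hCk : 0 ≤ Ck := (hc0 0).trans (hcb 0)
  have hCr : 0 ≤ Cr := (abs_nonneg _).trans (hrb 0)
  have hn := near_id hφm hφp
  set D := |φ 0| + 2 * Real.pi with hD
  have hD0 : 0 ≤ D := by positivity
  have hKR : ∀ x s, D + Real.pi < |x - s| → K x s = 0 := by
    intro x s h
    by_contra hne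
    obtain ⟨h3, h4⟩ := hKw x s hne
    have h5 := abs_le.1 (hn x)
    have : |x - s| ≤ D + Real.pi := by
      rw [abs_le]
      constructor <;> linarith [h5.1, h5.2]
    linarith
  have hKb : ∀ x s, |K x s| ≤ Ck := fun x s => by
    rw [abs_of_nonneg (hK0 x s)]; exact (hKc x s).trans (hcb x)
  have hφmeas : Measurable φ := hφc.measurable
  -- the weighted kernel
  set F : ℝ → ℝ → ℝ := fun x s => r x * (K x s * (s - φ x)) with hF
  have hFm : Measurable (Function.uncurry F) :=
    (hrm.comp measurable_fst).mul (hKm.mul (measurable_snd.sub (hφmeas.comp measurable_fst)))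
  have hFb : ∀ x s, |F x s| ≤ Cr * (Ck * Real.pi) := by
    intro x s
    rw [hF]
    simp only
    rw [abs_mul, abs_mul]
    by_cases h : K x s = 0
    · rw [h, abs_zero, zero_mul, mul_zero]; positivity
    · obtain ⟨h3, h4⟩ := hKw x s h
      have h5 : |s - φ x| ≤ Real.pi := by rw [abs_le]; constructor <;> linarith
      exact mul_le_mul (hrb x) (mul_le_mul (hKb x s) h5 (abs_nonneg _) hCk)
        (by positivity) hCr
  have hFR : ∀ x s, D + Real.pi < |x - s| → F x s = 0 := fun x s h => by
    rw [hF]; simp only; rw [hKR x s h, zero_mul, mul_zero]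
  have hFp : ∀ x s, F (x + 2 * Real.pi) (s + 2 * Real.pi) = F x s := fun x s => by
    rw [hF]; simp only; rw [hKp, hrp, hφp]; ring
  -- integrability in `x`
  have hsupp : ∀ (H : ℝ → ℝ) (s C : ℝ), Measurable H → (∀ x, |H x| ≤ C) →
      (∀ x, D + Real.pi < |x - s| → H x = 0) → Integrable H := by
    intro H s C h1 h3 h4
    have hI : Integrable ((Icc (s - (D + Real.pi)) (s + (D + Real.pi))).indicator (fun _ : ℝ => C)) volume :=
      (integrable_indicator_iff measurableSet_Icc).2 (integrableOn_const (by simp))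
    refine hI.mono' h1.aestronglyMeasurable (Eventually.of_forall fun x => ?_)
    rw [Real.norm_eq_abs]
    by_cases h : x ∈ Icc (s - (D + Real.pi)) (s + (D + Real.pi))
    · rw [indicator_of_mem h]; exact h3 x
    · rw [indicator_of_notMem h]
      have h5 : D + Real.pi < |x - s| := by
        rw [lt_abs]
        rw [mem_Icc, not_and_or, not_le, not_le] at h
        rcases h with h | h
        · right; linarith
        · left; linarith
      rw [h4 x h5, abs_zero]
  have hKx : ∀ s, Measurable (fun x => K x s) := fun s => hKm.comp measurable_prodMk_right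
  have hFx : ∀ s, Measurable (fun x => F x s) := fun s => hFm.comp measurable_prodMk_right
  have hKI : ∀ s, Integrable (fun x => K x s) := fun s =>
    hsupp _ s Ck (hKx s) (fun x => hKb x s) (fun x h => hKR x s h)
  have hFI : ∀ s, Integrable (fun x => F x s) := fun s =>
    hsupp _ s _ (hFx s) (fun x => hFb x s) (fun x h => hFR x s h)
  have hpt : ∀ s, (∫ x, K x s) ^ 2 ≤ 2 * ∫ x, F x s := by
    intro s
    have e : (fun x => F x s) = fun x => K x s * (r x * (s - φ x)) := by
      funext x; rw [hF]; simp only; ring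
    rw [show (∫ x, F x s) = ∫ x, K x s * (r x * (s - φ x)) by rw [← e]]
    refine sq_le_two (hKI s) (fun x => hK0 x s) (fun x hx => ?_) (by rw [← e]; exact hFI s)
    obtain ⟨h3, h4⟩ := hKw x s hx
    obtain ⟨y, hy⟩ := surj_of hφc hφm hφp s
    have hxy : x ≤ y := by
      by_contra hlt
      have := hφm (not_le.1 hlt).le
      linarith
    have h5 : ∫ z in Ioi x, K z s ≤ ∫ z in Ioc x y, c z := by
      have h6 : ∫ z in Ioi x, K z s = ∫ z in Ioc x y, K z s := by
        refine (setIntegral_eq_of_subset_of_forall_sdiff_eq_zero measurableSet_Ioi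
          Ioc_subset_Ioi_self fun z hz => ?_)
        by_contra hne
        have h7 := (hKw z s hne).1
        rw [← hy] at h7
        have h8 : y < z := by
          by_contra h9
          exact hz.2 ⟨hz.1, not_lt.1 h9⟩
        have := hφm h8.le
        linarith
      rw [h6]
      have hcI : IntegrableOn c (Ioc x y) := by
        refine Measure.integrableOn_of_bounded (M := Ck) (by simp) hcm.aestronglyMeasurable ?_
        exact Eventually.of_forall fun z => by
          rw [Real.norm_eq_abs, abs_of_nonneg (hc0 z)]; exact hcb z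
      exact setIntegral_mono (hKI s).integrableOn hcI fun z => hKc z s
    rw [← intervalIntegral.integral_of_le hxy] at h5
    refine h5.trans ?_
    have h9 := hc x y hxy (by rw [hy]; exact h4)
    rwa [hy] at h9
  have hmeas2 : Measurable (fun s => ∫ x, K x s) :=
    (hKm.comp measurable_swap).stronglyMeasurable.integral_prod_right'.measurable
  have hmeas3 : Measurable (fun s => ∫ x, F x s) :=
    (hFm.comp measurable_swap).stronglyMeasurable.integral_prod_right'.measurable
  have hbd : ∀ (H : ℝ → ℝ) (s C : ℝ), (∀ x, |H x| ≤ C) →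
      (∀ x, D + Real.pi < |x - s| → H x = 0) → |∫ x, H x| ≤ C * (2 * (D + Real.pi)) := by
    intro H s C h3 h4
    have hC : 0 ≤ C := (abs_nonneg _).trans (h3 0)
    have e : ∫ x, H x = ∫ x in Icc (s - (D + Real.pi)) (s + (D + Real.pi)), H x := by
      rw [← setIntegral_univ]
      refine (setIntegral_eq_of_subset_of_forall_sdiff_eq_zero MeasurableSet.univ
        (subset_univ _) fun x hx => ?_)
      refine h4 x ?_
      have h := hx.2
      rw [lt_abs]
      rw [mem_Icc, not_and_or, not_le, not_le] at h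
      rcases h with h | h
      · right; linarith
      · left; linarith
    rw [e, ← Real.norm_eq_abs]
    refine (norm_setIntegral_le_of_norm_le_const (C := C) (by simp) fun x _ => by
      rw [Real.norm_eq_abs]; exact h3 x).trans ?_
    rw [Measure.real, Real.volume_Icc, ENNReal.toReal_ofReal (by linarith)]
    exact le_of_eq (by ring)
  have hint1 : IntervalIntegrable (fun s => (∫ x, K x s) ^ 2) volume 0 (2 * Real.pi) := by
    rw [intervalIntegrable_iff]
    refine Measure.integrableOn_of_bounded (M := (Ck * (2 * (D + Real.pi))) ^ 2)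
      (by rw [uIoc_of_le h2, Real.volume_Ioc]; exact ENNReal.ofReal_ne_top)
      (hmeas2.pow_const 2).aestronglyMeasurable (Eventually.of_forall fun s => ?_)
    rw [norm_pow, Real.norm_eq_abs]
    exact pow_le_pow_left₀ (abs_nonneg _) (hbd _ s Ck (fun x => hKb x s) (fun x h => hKR x s h)) 2
  have hint2 : IntervalIntegrable (fun s => 2 * ∫ x, F x s) volume 0 (2 * Real.pi) := by
    refine IntervalIntegrable.const_mul ?_ 2
    rw [intervalIntegrable_iff]
    refine Measure.integrableOn_of_bounded (M := (Cr * (Ck * Real.pi)) * (2 * (D + Real.pi)))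
      (by rw [uIoc_of_le h2, Real.volume_Ioc]; exact ENNReal.ofReal_ne_top)
      hmeas3.aestronglyMeasurable (Eventually.of_forall fun s => ?_)
    rw [Real.norm_eq_abs]
    exact hbd _ s _ (fun x => hFb x s) (fun x h => hFR x s h)
  have hle := intervalIntegral.integral_mono_on h2 hint1 hint2 fun s _ => hpt s
  refine hle.trans (le_of_eq ?_)
  rw [intervalIntegral.integral_const_mul, ← unfold_per hFm hFb hFR hFp]
  congr 1
  refine intervalIntegral.integral_congr fun x _ => ?_
  show ∫ s, F x s = r x * ∫ s, K x s * (s - φ x)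
  rw [hF]
  exact integral_const_mul _ _

/-- THE WINDOW LEMMA, left windows -/
theorem win_left {φ c r : ℝ → ℝ} {K : ℝ → ℝ → ℝ} {Ck Cr : ℝ}
    (hφc : Continuous φ) (hφm : Monotone φ) (hφp : ∀ x, φ (x + 2 * Real.pi) = φ x + 2 * Real.pi)
    (hcm : Measurable c) (hc0 : ∀ x, 0 ≤ c x) (hcb : ∀ x, c x ≤ Ck)
    (hc : ∀ x y, x ≤ y → φ y < φ x + Real.pi → ∫ t in x..y, c t ≤ r y * (φ y - φ x))
    (hrm : Measurable r) (hrb : ∀ x, |r x| ≤ Cr) (hrp : ∀ x, r (x + 2 * Real.pi) = r x)
    (hKm : Measurable (Function.uncurry K)) (hK0 : ∀ x s, 0 ≤ K x s) (hKc : ∀ x s, K x s ≤ c x)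
    (hKp : ∀ x s, K (x + 2 * Real.pi) (s + 2 * Real.pi) = K x s)
    (hKw : ∀ x s, K x s ≠ 0 → φ x - Real.pi < s ∧ s < φ x) :
    ∫ s in (0 : ℝ)..(2 * Real.pi), (∫ x, K x s) ^ 2
      ≤ 2 * ∫ x in (0 : ℝ)..(2 * Real.pi), r x * ∫ s, K x s * (φ x - s) := by
  have hpi := Real.pi_pos
  have key := win_right (φ := fun x => -φ (-x)) (c := fun x => c (-x)) (r := fun x => r (-x))
    (K := fun x s => K (-x) (-s)) (Ck := Ck) (Cr := Cr)
    (hφc.comp continuous_neg).neg
    (fun x y h => by
      have := hφm (neg_le_neg h)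
      show -φ (-x) ≤ -φ (-y)
      linarith)
    (fun x => by
      have h := hφp (-(x + 2 * Real.pi))
      rw [show -(x + 2 * Real.pi) + 2 * Real.pi = -x by ring] at h
      show -φ (-(x + 2 * Real.pi)) = -φ (-x) + 2 * Real.pi
      linarith)
    (hcm.comp measurable_neg) (fun x => hc0 _) (fun x => hcb _)
    (fun x y h h1 => by
      have h2 := hc (-y) (-x) (neg_le_neg h) (by
        have h1' : -φ (-y) < -φ (-x) + Real.pi := h1
        linarith)
      show ∫ t in x..y, c (-t) ≤ r (-x) * (-φ (-y) - -φ (-x))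
      rw [intervalIntegral.integral_comp_neg]
      refine h2.trans (le_of_eq ?_)
      ring)
    (hrm.comp measurable_neg) (fun x => hrb _)
    (fun x => by
      have h := hrp (-(x + 2 * Real.pi))
      rw [show -(x + 2 * Real.pi) + 2 * Real.pi = -x by ring] at h
      exact h.symm)
    (hKm.comp (measurable_fst.neg.prodMk measurable_snd.neg))
    (fun x s => hK0 _ _) (fun x s => hKc _ _)
    (fun x s => by
      have h := hKp (-(x + 2 * Real.pi)) (-(s + 2 * Real.pi))
      rw [show -(x + 2 * Real.pi) + 2 * Real.pi = -x by ring,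
        show -(s + 2 * Real.pi) + 2 * Real.pi = -s by ring] at h
      exact h.symm)
    (fun x s h => by
      obtain ⟨h1, h2⟩ := hKw (-x) (-s) h
      constructor
      · show -φ (-x) < s
        linarith
      · show s < -φ (-x) + Real.pi
        linarith)
  have f1 : ∀ H : ℝ → ℝ, (∀ x, H (x + 2 * Real.pi) = H x) →
      ∫ x in (0 : ℝ)..(2 * Real.pi), H (-x) = ∫ x in (0 : ℝ)..(2 * Real.pi), H x := by
    intro H hH
    rw [intervalIntegral.integral_comp_neg, neg_zero]
    have hper : Function.Periodic H (2 * Real.pi) := hH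
    have := hper.intervalIntegral_add_eq (-(2 * Real.pi)) 0
    rw [neg_add_cancel, zero_add] at this
    exact this
  have e1 : ∀ s : ℝ, ∫ x, K (-x) (-s) = ∫ x, K x (-s) := fun s =>
    integral_neg_eq_self (fun x => K x (-s)) volume
  have e2 : ∀ x : ℝ, ∫ s, K (-x) (-s) * (s - -φ (-x)) = ∫ s, K (-x) s * (φ (-x) - s) := by
    intro x
    rw [← integral_neg_eq_self (fun s => K (-x) s * (φ (-x) - s)) volume]
    refine integral_congr_ae (Eventually.of_forall fun s => ?_)
    show K (-x) (-s) * (s - -φ (-x)) = K (-x) (-s) * (φ (-x) - -s)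
    ring
  have e3 : ∀ s, ∫ x, K x (s + 2 * Real.pi) = ∫ x, K x s := by
    intro s
    rw [← integral_add_right_eq_self (fun x => K x (s + 2 * Real.pi)) (2 * Real.pi)]
    exact integral_congr_ae (Eventually.of_forall fun x => hKp x s)
  have e4 : ∀ x, r (x + 2 * Real.pi) * ∫ s, K (x + 2 * Real.pi) s * (φ (x + 2 * Real.pi) - s)
      = r x * ∫ s, K x s * (φ x - s) := by
    intro x
    rw [hrp, ← integral_add_right_eq_self
      (fun s => K (x + 2 * Real.pi) s * (φ (x + 2 * Real.pi) - s)) (2 * Real.pi)]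
    congr 1
    refine integral_congr_ae (Eventually.of_forall fun s => ?_)
    show K (x + 2 * Real.pi) (s + 2 * Real.pi) * (φ (x + 2 * Real.pi) - (s + 2 * Real.pi))
      = K x s * (φ x - s)
    rw [hKp, hφp]
    ring
  simp_rw [e1, e2] at key
  rw [f1 (fun s => (∫ x, K x s) ^ 2) (fun s => by
      show (∫ x, K x (s + 2 * Real.pi)) ^ 2 = (∫ x, K x s) ^ 2
      rw [e3]), f1 (fun x => r x * ∫ s, K x s * (φ x - s)) e4] at key
  exact key

end Pool.Agent.Helper85.RC
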